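import Mathlib
import Pool.Agent.V11191.Opp.Defs

/-!
Smooth Riemannian metrics on the two-sphere `S² ⊂ ℝ³`, the `C^∞` topology on the space of all of
them, lengths, intrinsic distance, segments, critical points and property (O).
-/

open scoped RealInnerProductSpace UniformConvergence

namespace Pool.Agent.K6.H75.OM

open Pool.Agent.V11191.Opp (E3 IsPath)

/-- Bilinear forms on `ℝ³`. -/
abbrev Form : Type := E3 →L[ℝ] E3 →L[ℝ] ℝ

/-- A smooth Riemannian metric on the sphere `S² ⊂ ℝ³`. The tangent plane at `x ∈ S²` is the
orthogonal complement of `x`, and `toFun x v w` is the scalar product of the tangent vectors `v`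
and `w` at `x`. To have exactly one function for every metric, the bilinear form `toFun x` on `ℝ³`
vanishes if one of its arguments is `x`, the function `toFun` is extended to `ℝ³ ∖ {0}` such that it
is constant on the rays, and it is `0` at the origin. The metric is smooth if and only if this
extension is smooth on `ℝ³ ∖ {0}`. -/
structure SphereMetric where
  /-- the scalar products -/
  toFun : E3 → Form
  /-- the metric is smooth -/
  smooth : ContDiffOn ℝ (⊤ : ℕ∞) toFun {0}ᶜ
  /-- `toFun` is constant on the rays -/
  ray : ∀ t : ℝ, 0 < t → ∀ x, toFun (t • x) = toFun x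
  /-- the value at the origin -/
  zero : toFun 0 = 0
  /-- the forms are symmetric -/
  symm : ∀ x v w, toFun x v w = toFun x w v
  /-- normalization in the direction of `x` -/
  normal : ∀ x v, toFun x x v = 0
  /-- the forms are positive definite on the tangent planes -/
  pos : ∀ x v, x ≠ 0 → ⟪x, v⟫ = 0 → v ≠ 0 → 0 < toFun x v v

/-- The `C^∞` topology on the space of all smooth Riemannian metrics on `S²`: uniform convergence,
on `S²`, of the derivatives of all orders `k`. -/
noncomputable instance : TopologicalSpace SphereMetric :=
  ⨅ k : ℕ, TopologicalSpace.induced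
    (fun g : SphereMetric => UniformFun.ofFun
      fun x : Metric.sphere (0 : E3) 1 => iteratedFDeriv ℝ k g.toFun x) inferInstance

/-- Length of a `C¹` path on the sphere. -/
noncomputable def len (g : SphereMetric) (c : ℝ → E3) : ℝ :=
  ∫ t in (0 : ℝ)..1, Real.sqrt (g.toFun (c t) (deriv c t) (deriv c t))

/-- Intrinsic distance: the infimum of the lengths of the `C¹` paths from `p` to `q`. -/
noncomputable def rho (g : SphereMetric) (p q : E3) : ℝ :=
  sInf {L | ∃ c, IsPath c p q ∧ L = len g c}

/-- `c` is a segment from `p` to `q`, i.e. a shortest path, parametrized on `[0,1]` proportionally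
to arc length: its speed is constant and equal to the distance, so that its length is the
distance. -/
structure IsSegment (g : SphereMetric) (c : ℝ → E3) (p q : E3) : Prop where
  /-- it is a path from `p` to `q` -/
  path : IsPath c p q
  /-- it has constant speed, equal to the distance from `p` to `q` -/
  speed : ∀ t ∈ Set.Icc (0 : ℝ) 1,
    Real.sqrt (g.toFun (c t) (deriv c t) (deriv c t)) = rho g p q

/-- The angle of the tangent vectors `v` and `w` at `y`. -/
noncomputable def angle (g : SphereMetric) (y v w : E3) : ℝ :=
  Real.arccos (g.toFun y v w / (Real.sqrt (g.toFun y v v) * Real.sqrt (g.toFun y w w)))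

/-- `y` is critical with respect to `x`: for every tangent direction `τ` at `y` some segment from
`y` to `x` has at `y` a tangent direction making an angle at most `π/2` with `τ`. -/
def IsCritical (g : SphereMetric) (x y : E3) : Prop :=
  ∀ τ : E3, τ ≠ 0 → ⟪y, τ⟫ = 0 → ∃ c, IsSegment g c y x ∧ angle g y (deriv c 0) τ ≤ Real.pi / 2

/-- Property (O): there are points `x ≠ y` with `y` critical with respect to `x` and two segments
from `y` to `x` whose tangent directions at `y` make the angle `π`. -/
def PropertyO (g : SphereMetric) : Prop :=
  ∃ x ∈ Metric.sphere (0 : E3) 1, ∃ y ∈ Metric.sphere (0 : E3) 1, x ≠ y ∧ IsCritical g x y ∧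
    ∃ c₁ c₂, IsSegment g c₁ y x ∧ IsSegment g c₂ y x ∧
      angle g y (deriv c₁ 0) (deriv c₂ 0) = Real.pi

end Pool.Agent.K6.H75.OM
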