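import Mathlib
import Pool.Agent.V11191.Opp.EL
import Pool.Agent.K6.H75.OM.Defs

/-!
The energy inequality and the Euler–Lagrange equation of the segments of a Riemannian metric on the
sphere, tested with rotations.
-/

set_option maxSynthPendingDepth 3

open scoped RealInnerProductSpace Topology
open MeasureTheory

namespace Pool.Agent.K6.H75.OM

open Pool.Agent.V11191.Opp (E3 IsPath Agen rot rot_zero rot_norm rot_curve rot_hasDerivAt
  deriv_param_integral Agen_rot Agen_apply Agen_norm_le)

/-- `t` restricted to `[0,1]` -/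
noncomputable def cl (t : ℝ) : ℝ := max 0 (min 1 t)

theorem cl_cont : Continuous cl := by unfold cl; fun_prop

theorem cl_mem (t : ℝ) : cl t ∈ Set.Icc (0 : ℝ) 1 :=
  ⟨le_max_left _ _, max_le zero_le_one (min_le_left _ _)⟩

theorem cl_eq {t : ℝ} (ht : t ∈ Set.Icc (0 : ℝ) 1) : cl t = t := by
  unfold cl
  rw [min_eq_right ht.2, max_eq_right ht.1]

theorem int_congr {f g : ℝ → ℝ} (h : ∀ t ∈ Set.Icc (0 : ℝ) 1, f t = g t) :
    ∫ t in (0 : ℝ)..1, f t = ∫ t in (0 : ℝ)..1, g t := by
  refine intervalIntegral.integral_congr fun t ht => ?_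
  rw [Set.uIcc_of_le zero_le_one] at ht
  exact h t ht

/-- Lemma of du Bois-Reymond. -/
theorem dubois {J K : ℝ → ℝ} (hJc : Continuous J) (hKc : Continuous K)
    (hw0 : ∀ ψ ψ' : ℝ → ℝ, Continuous ψ' → (∀ t, HasDerivAt ψ (ψ' t) t) → ψ 0 = 0 → ψ 1 = 0 →
      ∫ t in (0 : ℝ)..1, (ψ t * K t + ψ' t * J t) = 0) {t : ℝ} (ht : t ∈ Set.Icc (0 : ℝ) 1) :
    J t = J 0 + ∫ s in (0 : ℝ)..t, K s := by
  set G : ℝ → ℝ := fun t => ∫ s in (0 : ℝ)..t, K s with hG
  have hGd : ∀ t, HasDerivAt G (K t) t := fun t =>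
    intervalIntegral.integral_hasDerivAt_right (hKc.intervalIntegrable _ _)
      (hKc.stronglyMeasurableAtFilter _ _) hKc.continuousAt
  have hGc : Continuous G := continuous_iff_continuousAt.2 fun t => (hGd t).continuousAt
  set P : ℝ → ℝ := fun t => J t - G t with hP
  have hPc : Continuous P := hJc.sub hGc
  set m : ℝ := ∫ t in (0 : ℝ)..1, P t with hm
  set ψ : ℝ → ℝ := fun t => ∫ s in (0 : ℝ)..t, (P s - m) with hψ
  have hPm : Continuous fun s => P s - m := hPc.sub continuous_const
  have hψd : ∀ t, HasDerivAt ψ (P t - m) t := fun t =>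
    intervalIntegral.integral_hasDerivAt_right (hPm.intervalIntegrable _ _)
      (hPm.stronglyMeasurableAtFilter _ _) hPm.continuousAt
  have hψ0 : ψ 0 = 0 := by simp [hψ]
  have hψ11 : ψ 1 = 0 := by
    simp only [hψ]
    rw [intervalIntegral.integral_sub (hPc.intervalIntegrable _ _) intervalIntegrable_const]
    simp [hm]
  have hw' : ∫ t in (0 : ℝ)..1, (ψ t * K t + (P t - m) * J t) = 0 :=
    hw0 ψ (fun t => P t - m) hPm hψd hψ0 hψ11
  have hψc : Continuous ψ := continuous_iff_continuousAt.2 fun t => (hψd t).continuousAt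
  have hparts : ∫ t in (0 : ℝ)..1, ψ t * K t = - ∫ t in (0 : ℝ)..1, (P t - m) * G t := by
    have := intervalIntegral.integral_mul_deriv_eq_deriv_mul (a := 0) (b := 1)
      (u := ψ) (v := G) (u' := fun t => P t - m) (v' := K)
      (fun t _ => hψd t) (fun t _ => hGd t) (hPm.intervalIntegrable _ _)
      (hKc.intervalIntegrable _ _)
    rw [this, hψ0, hψ11]
    ring
  have hint : ∫ t in (0 : ℝ)..1, (P t - m) ^ 2 = 0 := by
    have e1 : ∫ t in (0 : ℝ)..1, (ψ t * K t + (P t - m) * J t) =
        (∫ t in (0 : ℝ)..1, ψ t * K t) + ∫ t in (0 : ℝ)..1, (P t - m) * J t :=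
      intervalIntegral.integral_add ((hψc.mul hKc).intervalIntegrable _ _)
        ((hPm.mul hJc).intervalIntegrable _ _)
    rw [e1, hparts] at hw'
    have e2 : ∫ t in (0 : ℝ)..1, (P t - m) * P t =
        (∫ t in (0 : ℝ)..1, (P t - m) * J t) - ∫ t in (0 : ℝ)..1, (P t - m) * G t := by
      rw [← intervalIntegral.integral_sub (f := fun t => (P t - m) * J t)
        (g := fun t => (P t - m) * G t) ((hPm.mul hJc).intervalIntegrable _ _)
        ((hPm.mul hGc).intervalIntegrable _ _)]
      congr 1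
      funext t
      simp only [hP]
      ring
    have e3 : ∫ t in (0 : ℝ)..1, (P t - m) ^ 2 =
        (∫ t in (0 : ℝ)..1, (P t - m) * P t) - m * ∫ t in (0 : ℝ)..1, (P t - m) := by
      rw [← intervalIntegral.integral_const_mul, ← intervalIntegral.integral_sub
        (f := fun t => (P t - m) * P t) (g := fun t => m * (P t - m))
        ((hPm.mul hPc).intervalIntegrable _ _) ((continuous_const.mul hPm).intervalIntegrable _ _)]
      congr 1
      funext t
      ring
    have e4 : ∫ t in (0 : ℝ)..1, (P t - m) = 0 := hψ11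
    rw [e3, e2, e4]
    linarith
  have hconst : ∀ t ∈ Set.Icc (0 : ℝ) 1, P t = m := by
    intro t ht
    by_contra hne
    have hpos : 0 < ∫ t in (0 : ℝ)..1, (P t - m) ^ 2 := by
      refine intervalIntegral.integral_pos (by norm_num) ((hPm.pow 2).continuousOn)
        (fun x _ => sq_nonneg _) ⟨t, ht, ?_⟩
      have : P t - m ≠ 0 := sub_ne_zero.2 hne
      positivity
    rw [hint] at hpos
    exact lt_irrefl _ hpos
  have h1 := hconst t ht
  have h2 := hconst 0 ⟨le_rfl, by norm_num⟩
  have h3 : G 0 = 0 := by simp [hG]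
  have h4 : J t - G t = J 0 - G 0 := by
    have : P t = P 0 := by rw [h1, h2]
    simpa [hP] using this
  rw [h3] at h4
  have : J t = J 0 + G t := by linarith
  exact this

variable (g : SphereMetric)

theorem cont_comp {X : Type*} [TopologicalSpace X] {f : X → E3} (hf : Continuous f)
    (h0 : ∀ x, f x ≠ 0) : Continuous fun x => g.toFun (f x) :=
  g.smooth.continuousOn.comp_continuous hf fun x => by simpa using h0 x

theorem isOpen_compl : IsOpen ({0}ᶜ : Set E3) := isOpen_compl_singleton

theorem cont_fderiv_comp {X : Type*} [TopologicalSpace X] {f : X → E3} (hf : Continuous f)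
    (h0 : ∀ x, f x ≠ 0) : Continuous fun x => fderiv ℝ g.toFun (f x) :=
  (g.smooth.continuousOn_fderiv_of_isOpen isOpen_compl (by simp)).comp_continuous hf
    fun x => by simpa using h0 x

theorem hasFDerivAt {x : E3} (hx : x ≠ 0) : HasFDerivAt g.toFun (fderiv ℝ g.toFun x) x :=
  ((g.smooth.contDiffAt (isOpen_compl.mem_nhds (by simpa using hx))).differentiableAt
    (by simp)).hasFDerivAt

theorem normal' (x v : E3) : g.toFun x v x = 0 := by rw [g.symm, g.normal]

theorem nonneg {x : E3} (hx : ‖x‖ = 1) (v : E3) : 0 ≤ g.toFun x v v := by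
  have hx0 : x ≠ 0 := by rintro rfl; simp at hx
  set w := v - ⟪x, v⟫ • x with hw
  have hxx : ⟪x, x⟫ = 1 := by rw [real_inner_self_eq_norm_sq, hx]; norm_num
  have h1 : g.toFun x v v = g.toFun x w w := by
    simp only [hw, map_sub, map_smul, sub_apply, smul_apply,
      g.normal, normal', smul_zero, sub_zero]
  rw [h1]
  by_cases h : w = 0
  · simp [h]
  · refine (g.pos x w hx0 ?_ h).le
    rw [hw, inner_sub_right, inner_smul_right, hxx]
    ring

theorem len_nonneg (c : ℝ → E3) : 0 ≤ len g c :=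
  intervalIntegral.integral_nonneg (by norm_num) fun _ _ => Real.sqrt_nonneg _

theorem rho_le {c : ℝ → E3} {p q : E3} (hc : IsPath c p q) : rho g p q ≤ len g c := by
  refine csInf_le ⟨0, ?_⟩ ⟨c, hc, rfl⟩
  rintro L ⟨c', _, rfl⟩
  exact len_nonneg _ _

theorem rho_nonneg (p q : E3) : 0 ≤ rho g p q :=
  Real.sInf_nonneg (by rintro L ⟨c', _, rfl⟩; exact len_nonneg _ _)

/-- a path restricted to `[0,1]` and continued as a constant -/
theorem path_norm {c : ℝ → E3} {p q : E3} (hc : IsPath c p q) {t : ℝ}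
    (ht : t ∈ Set.Icc (0 : ℝ) 1) : ‖c t‖ = 1 := by
  have := hc.mem t ht
  rwa [mem_sphere_zero_iff_norm] at this

theorem path_ne {c : ℝ → E3} {p q : E3} (hc : IsPath c p q) (t : ℝ) : c (cl t) ≠ 0 := by
  intro h
  have := path_norm hc (cl_mem t)
  rw [h, norm_zero] at this
  exact zero_ne_one this

theorem speed_cont {c : ℝ → E3} {p q : E3} (hc : IsPath c p q) :
    Continuous fun t => g.toFun (c (cl t)) (deriv c (cl t)) (deriv c (cl t)) := by
  have hd : Continuous (deriv c) := hc.c1.continuous_deriv le_rfl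
  have h1 := cont_comp g (hc.c1.continuous.comp cl_cont) (path_ne hc)
  have h2 : Continuous fun t => deriv c (cl t) := hd.comp cl_cont
  exact (h1.clm_apply h2).clm_apply h2

/-- the energy is at least the square of the distance -/
theorem energy_ge {c : ℝ → E3} {p q : E3} (hc : IsPath c p q) :
    rho g p q ^ 2 ≤ ∫ t in (0 : ℝ)..1, g.toFun (c t) (deriv c t) (deriv c t) := by
  have hf : Continuous fun t => Real.sqrt (g.toFun (c (cl t)) (deriv c (cl t)) (deriv c (cl t))) :=
    (speed_cont g hc).sqrt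
  set f : ℝ → ℝ := fun t => Real.sqrt (g.toFun (c (cl t)) (deriv c (cl t)) (deriv c (cl t)))
  set d := rho g p q with hdd
  have h0 : 0 ≤ d := rho_nonneg _ _ _
  have h1 : d ≤ ∫ t in (0 : ℝ)..1, f t := by
    refine (rho_le g hc).trans (le_of_eq ?_)
    exact int_congr fun t ht => by simp only [f, cl_eq ht]
  have hsq : ∀ t, f t ^ 2 = g.toFun (c (cl t)) (deriv c (cl t)) (deriv c (cl t)) := fun t =>
    Real.sq_sqrt (nonneg g (path_norm hc (cl_mem t)) _)
  have h2 : 0 ≤ ∫ t in (0 : ℝ)..1, (f t - d) ^ 2 :=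
    intervalIntegral.integral_nonneg (by norm_num) fun _ _ => sq_nonneg _
  have h3 : (∫ t in (0 : ℝ)..1, (f t - d) ^ 2) =
      (∫ t in (0 : ℝ)..1, f t ^ 2) - 2 * d * (∫ t in (0 : ℝ)..1, f t) + d ^ 2 := by
    have e1 : ∀ t, (f t - d) ^ 2 = f t ^ 2 - 2 * d * f t + d ^ 2 := fun t => by ring
    simp only [e1]
    rw [intervalIntegral.integral_add, intervalIntegral.integral_sub,
      intervalIntegral.integral_const_mul]
    · simp
    · exact (hf.pow 2).intervalIntegrable _ _
    · exact (continuous_const.mul hf).intervalIntegrable _ _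
    · exact ((hf.pow 2).sub (continuous_const.mul hf)).intervalIntegrable _ _
    · exact intervalIntegrable_const
  have h4 : (∫ t in (0 : ℝ)..1, f t ^ 2) =
      ∫ t in (0 : ℝ)..1, g.toFun (c t) (deriv c t) (deriv c t) :=
    int_congr fun t ht => by rw [hsq, cl_eq ht]
  rw [h3, h4] at h2
  nlinarith

end Pool.Agent.K6.H75.OM
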