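import Mathlib
import Pool.Agent.K6.H75.OM.EL

/-!
The Euler–Lagrange equation of the segments of a Riemannian metric on the sphere, tested with
rotations.
-/

set_option maxSynthPendingDepth 3

open scoped RealInnerProductSpace Topology
open MeasureTheory

namespace Pool.Agent.K6.H75.OM

open Pool.Agent.V11191.Opp (E3 IsPath Agen rot rot_zero rot_norm rot_curve rot_hasDerivAt
  deriv_param_integral Agen_rot Agen_apply Agen_norm_le)

variable (g : SphereMetric)

/-- the density of the variation -/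
noncomputable def KK (x v : E3) (a b : E3) : ℝ :=
  1 / 2 * fderiv ℝ g.toFun x (Agen a b x) v v + g.toFun x (Agen a b v) v

/-- The Euler–Lagrange equation, weak form. -/
theorem weak_el {γ : ℝ → E3} {p q : E3} (hγ : IsSegment g γ p q)
    {a b : E3} (ha : ‖a‖ = 1) (hb : ‖b‖ = 1) (hab : ⟪a, b⟫ = 0)
    {ψ ψ' : ℝ → ℝ} (hψ'c : Continuous ψ') (hψd : ∀ t, HasDerivAt ψ (ψ' t) t)
    (h0 : ψ 0 = 0) (h1 : ψ 1 = 0) :
    ∫ t in (0 : ℝ)..1, (ψ t * KK g (γ (cl t)) (deriv γ (cl t)) a b +
      ψ' t * g.toFun (γ (cl t)) (Agen a b (γ (cl t))) (deriv γ (cl t))) = 0 := by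
  have hγ1 := hγ.path.c1
  have hγc : Continuous γ := hγ1.continuous
  have hγd : Continuous (deriv γ) := hγ1.continuous_deriv le_rfl
  have hψc : Continuous ψ := continuous_iff_continuousAt.2 fun t => (hψd t).continuousAt
  have hAc : Continuous (fun p : E3 => Agen a b p) := (Agen a b).continuous
  set x : ℝ → E3 := fun t => γ (cl t) with hx
  set v : ℝ → E3 := fun t => deriv γ (cl t) with hv
  have hxc : Continuous x := hγc.comp cl_cont
  have hvc : Continuous v := hγd.comp cl_cont
  have hxn : ∀ t, ‖x t‖ = 1 := fun t => path_norm hγ.path (cl_mem t)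
  set R : ℝ → ℝ → E3 := fun s t => rot a b (s * ψ t) (x t) with hR
  set V : ℝ → ℝ → E3 := fun s t => v t + (s * ψ' t) • Agen a b (x t) with hV
  set U : ℝ → ℝ → E3 := fun s t => rot a b (s * ψ t) (V s t) with hU
  set U' : ℝ → ℝ → E3 := fun s t =>
    rot a b (s * ψ t) (ψ' t • Agen a b (x t) + ψ t • Agen a b (V s t)) with hU'
  have hRn : ∀ s t, ‖R s t‖ = 1 := fun s t => by simp only [hR, rot_norm ha hb hab, hxn]
  have hR0 : ∀ s t, R s t ≠ 0 := fun s t h => by
    have := hRn s t
    rw [h, norm_zero] at this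
    exact zero_ne_one this
  have hRc : Continuous (fun z : ℝ × ℝ => R z.1 z.2) := by
    simp only [hR]
    unfold rot
    fun_prop
  have hVc : Continuous (fun z : ℝ × ℝ => V z.1 z.2) := by
    simp only [hV]
    fun_prop
  have hUc : Continuous (fun z : ℝ × ℝ => U z.1 z.2) := by
    simp only [hU]
    unfold rot
    fun_prop
  have hU'c : Continuous (fun z : ℝ × ℝ => U' z.1 z.2) := by
    simp only [hU']
    unfold rot
    fun_prop
  set F : ℝ → ℝ → ℝ := fun s t => g.toFun (R s t) (U s t) (U s t) with hF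
  set F' : ℝ → ℝ → ℝ := fun s t =>
    fderiv ℝ g.toFun (R s t) (ψ t • Agen a b (R s t)) (U s t) (U s t) +
      g.toFun (R s t) (U' s t) (U s t) + g.toFun (R s t) (U s t) (U' s t) with hF'
  have hgR : Continuous (fun z : ℝ × ℝ => g.toFun (R z.1 z.2)) :=
    cont_comp g hRc fun z => hR0 _ _
  have hgR' : Continuous (fun z : ℝ × ℝ => fderiv ℝ g.toFun (R z.1 z.2)) :=
    cont_fderiv_comp g hRc fun z => hR0 _ _
  have hARc : Continuous (fun z : ℝ × ℝ => ψ z.2 • Agen a b (R z.1 z.2)) := by
    fun_prop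
  have hFc : Continuous (Function.uncurry F) :=
    (hgR.clm_apply hUc).clm_apply hUc
  have hF'c : Continuous (Function.uncurry F') :=
    ((((hgR'.clm_apply hARc).clm_apply hUc).clm_apply hUc).add
      ((hgR.clm_apply hU'c).clm_apply hUc)).add ((hgR.clm_apply hUc).clm_apply hU'c)
  have hFd : ∀ s t, HasDerivAt (fun s => F s t) (F' s t) s := by
    intro s t
    have r1 : HasDerivAt (fun s : ℝ => s * ψ t) (ψ t) s := by
      simpa using (hasDerivAt_id s).mul_const (ψ t)
    have r2 : HasDerivAt (fun s => R s t) (ψ t • Agen a b (R s t)) s := by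
      have := HasDerivAt.scomp (g₁ := fun s => rot a b s (x t)) s
        (rot_hasDerivAt ha hb hab (s * ψ t) (x t)) r1
      exact this
    have r3 : HasDerivAt (fun s => g.toFun (R s t))
        (fderiv ℝ g.toFun (R s t) (ψ t • Agen a b (R s t))) s :=
      (hasFDerivAt g (hR0 s t)).comp_hasDerivAt s r2
    have r5 : HasDerivAt (fun s : ℝ => V s t) (ψ' t • Agen a b (x t)) s := by
      have : HasDerivAt (fun s : ℝ => s * ψ' t) (ψ' t) s := by
        simpa using (hasDerivAt_id s).mul_const (ψ' t)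
      exact (this.smul_const _).const_add _
    have r6 : HasDerivAt (fun s => U s t) (U' s t) s := rot_curve ha hb hab r1 r5
    have r7 : HasDerivAt (fun s => g.toFun (R s t) (U s t))
        (fderiv ℝ g.toFun (R s t) (ψ t • Agen a b (R s t)) (U s t) +
          g.toFun (R s t) (U' s t)) s := r3.clm_apply r6
    have r8 := r7.clm_apply r6
    refine r8.congr_deriv ?_
    simp only [hF', add_apply]
  have hE := deriv_param_integral hFc hF'c hFd
  have hmin : ∀ s, (∫ t in (0 : ℝ)..1, F 0 t) ≤ ∫ t in (0 : ℝ)..1, F s t := by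
    intro s
    have hder : ∀ t, HasDerivAt (fun t => rot a b (s * ψ t) (γ t))
        (rot a b (s * ψ t) (deriv γ t + (s * ψ' t) • Agen a b (γ t))) t := by
      intro t
      exact rot_curve ha hb hab ((hψd t).const_mul s)
        ((hγ1.differentiable one_ne_zero) t).hasDerivAt
    have hpath : IsPath (fun t => rot a b (s * ψ t) (γ t)) p q := by
      refine ⟨?_, ?_, ?_, ?_⟩
      · rw [contDiff_one_iff_deriv]
        refine ⟨fun t => (hder t).differentiableAt, ?_⟩
        have : deriv (fun t => rot a b (s * ψ t) (γ t)) =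
            fun t => rot a b (s * ψ t) (deriv γ t + (s * ψ' t) • Agen a b (γ t)) := by
          funext t; exact (hder t).deriv
        rw [this]
        unfold rot
        fun_prop
      · intro t ht
        have := hγ.path.mem t ht
        rw [mem_sphere_zero_iff_norm] at this ⊢
        rw [rot_norm ha hb hab, this]
      · simp [h0, rot_zero, hγ.path.start]
      · simp [h1, rot_zero, hγ.path.finish]
    have h2 := energy_ge g hpath
    have h3 : (∫ t in (0 : ℝ)..1, g.toFun (rot a b (s * ψ t) (γ t))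
        (deriv (fun t => rot a b (s * ψ t) (γ t)) t)
        (deriv (fun t => rot a b (s * ψ t) (γ t)) t)) = ∫ t in (0 : ℝ)..1, F s t :=
      int_congr fun t ht => by
        simp only [hF, hR, hU, hV, hx, hv, cl_eq ht, (hder t).deriv]
    have h4 : (∫ t in (0 : ℝ)..1, F 0 t) = rho g p q ^ 2 := by
      have : (∫ t in (0 : ℝ)..1, F 0 t) = ∫ t in (0 : ℝ)..1, rho g p q ^ 2 :=
        int_congr fun t ht => by
          have h5 := hγ.speed t ht
          rw [← h5, Real.sq_sqrt (nonneg g (path_norm hγ.path ht) _)]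
          simp [hF, hR, hU, hV, hx, hv, cl_eq ht, rot_zero]
      rw [this]
      simp
    rw [h4, ← h3]
    exact h2
  have hloc : IsLocalMin (fun s => ∫ t in (0 : ℝ)..1, F s t) 0 :=
    Filter.Eventually.of_forall hmin
  have hzero := hloc.hasDerivAt_eq_zero hE
  have h5 : (∫ t in (0 : ℝ)..1, F' 0 t) = 2 * ∫ t in (0 : ℝ)..1,
      (ψ t * KK g (x t) (v t) a b + ψ' t * g.toFun (x t) (Agen a b (x t)) (v t)) := by
    rw [← intervalIntegral.integral_const_mul]
    congr 1
    funext t
    simp only [hF', hR, hU, hU', hV, KK, zero_mul, rot_zero, zero_smul, add_zero, map_add,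
      map_smul, add_apply, smul_apply, smul_eq_mul]
    rw [g.symm (x t) (v t) (Agen a b (x t)), g.symm (x t) (v t) (Agen a b (v t))]
    ring
  rw [h5] at hzero
  linarith

/-- The Euler–Lagrange equation in integrated form. -/
theorem el {γ : ℝ → E3} {p q : E3} (hγ : IsSegment g γ p q)
    {a b : E3} (ha : ‖a‖ = 1) (hb : ‖b‖ = 1) (hab : ⟪a, b⟫ = 0) {t : ℝ}
    (ht : t ∈ Set.Icc (0 : ℝ) 1) :
    g.toFun (γ t) (Agen a b (γ t)) (deriv γ t) =
      g.toFun (γ 0) (Agen a b (γ 0)) (deriv γ 0) +
      ∫ s in (0 : ℝ)..t, KK g (γ (cl s)) (deriv γ (cl s)) a b := by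
  have hγ1 := hγ.path.c1
  have hγc : Continuous γ := hγ1.continuous
  have hγd : Continuous (deriv γ) := hγ1.continuous_deriv le_rfl
  have hAc : Continuous (fun p : E3 => Agen a b p) := (Agen a b).continuous
  have hxc : Continuous fun t => γ (cl t) := hγc.comp cl_cont
  have hvc : Continuous fun t => deriv γ (cl t) := hγd.comp cl_cont
  have hgx := cont_comp g hxc (path_ne hγ.path)
  have hgx' := cont_fderiv_comp g hxc (path_ne hγ.path)
  have hJ : Continuous fun t => g.toFun (γ (cl t)) (Agen a b (γ (cl t))) (deriv γ (cl t)) :=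
    (hgx.clm_apply (hAc.comp hxc)).clm_apply hvc
  have hK : Continuous fun t => KK g (γ (cl t)) (deriv γ (cl t)) a b := by
    unfold KK
    exact (continuous_const.mul (((hgx'.clm_apply (hAc.comp hxc)).clm_apply hvc).clm_apply
      hvc)).add ((hgx.clm_apply (hAc.comp hvc)).clm_apply hvc)
  have h := dubois hJ hK (fun ψ ψ' h1 h2 h3 h4 => weak_el g hγ ha hb hab h1 h2 h3 h4) ht
  simpa only [cl_eq ht, cl_eq (show (0 : ℝ) ∈ Set.Icc (0 : ℝ) 1 from ⟨le_rfl, zero_le_one⟩)]
    using h

end Pool.Agent.K6.H75.OM
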