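import Mathlib
import Pool.Agent.K6.H75.OM.EL2
import Pool.Agent.V11191.Opp.Upper

/-!
Uniform estimates for the segments of the Riemannian metrics in a neighbourhood of a given one.
-/

set_option maxSynthPendingDepth 3

open scoped RealInnerProductSpace Topology
open MeasureTheory

namespace Pool.Agent.K6.H75.OM

open Pool.Agent.V11191.Opp (E3 IsPath Agen rot rot_zero rot_norm rot_curve rot_hasDerivAt
  deriv_param_integral Agen_rot Agen_apply Agen_norm_le gc gc_norm gc_deriv exists_dir arc_path)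

/-- Bounds for a metric and its first derivatives. -/
structure Bd (g : SphereMetric) (a A B : ℝ) : Prop where
  a_pos : 0 < a
  A_pos : 0 < A
  B_nonneg : 0 ≤ B
  lower : ∀ x v : E3, ‖x‖ = 1 → ⟪x, v⟫ = 0 → a * ‖v‖ ^ 2 ≤ g.toFun x v v
  upper : ∀ x : E3, ‖x‖ = 1 → ‖g.toFun x‖ ≤ A
  dupper : ∀ x : E3, ‖x‖ = 1 → ‖fderiv ℝ g.toFun x‖ ≤ B

theorem path_perp {c : ℝ → E3} {p q : E3} (hc : IsPath c p q) {t : ℝ}
    (ht : t ∈ Set.Icc (0 : ℝ) 1) : ⟪c t, deriv c t⟫ = 0 := by
  have hd : ∀ s, HasDerivAt c (deriv c s) s := fun s =>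
    ((hc.c1.differentiable one_ne_zero) s).hasDerivAt
  have hcont : Continuous fun s => ⟪c s, deriv c s⟫ :=
    hc.c1.continuous.inner (hc.c1.continuous_deriv le_rfl)
  have hint : ∀ s ∈ Set.Ioo (0 : ℝ) 1, ⟪c s, deriv c s⟫ = 0 := by
    intro s hs
    have h1 : HasDerivAt (fun s => ⟪c s, c s⟫) (⟪c s, deriv c s⟫ + ⟪deriv c s, c s⟫) s :=
      (hd s).inner ℝ (hd s)
    have h2 : HasDerivAt (fun s => ⟪c s, c s⟫) 0 s := by
      refine (hasDerivAt_const s (1 : ℝ)).congr_of_eventuallyEq ?_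
      filter_upwards [Ioo_mem_nhds hs.1 hs.2] with r hr
      rw [real_inner_self_eq_norm_sq, path_norm hc ⟨hr.1.le, hr.2.le⟩]
      norm_num
    have h3 := h1.unique h2
    rw [real_inner_comm (c s) (deriv c s)] at h3
    linarith
  have hcl : IsClosed {s | ⟪c s, deriv c s⟫ = 0} := isClosed_eq hcont continuous_const
  have hsub : closure (Set.Ioo (0 : ℝ) 1) ⊆ {s | ⟪c s, deriv c s⟫ = 0} :=
    hcl.closure_subset_iff.2 hint
  rw [closure_Ioo (by norm_num)] at hsub
  exact hsub ht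

section
variable {g : SphereMetric} {a A B : ℝ} (h : Bd g a A B)
include h

theorem upper_apply {x : E3} (hx : ‖x‖ = 1) (v w : E3) : |g.toFun x v w| ≤ A * ‖v‖ * ‖w‖ := by
  have h1 := (g.toFun x).le_opNorm₂ v w
  rw [Real.norm_eq_abs] at h1
  refine h1.trans ?_
  have := h.upper x hx
  gcongr

theorem seg_sq {c : ℝ → E3} {p q : E3} (hc : IsSegment g c p q) {t : ℝ}
    (ht : t ∈ Set.Icc (0 : ℝ) 1) : g.toFun (c t) (deriv c t) (deriv c t) = rho g p q ^ 2 := by
  rw [← hc.speed t ht, Real.sq_sqrt (nonneg g (path_norm hc.path ht) _)]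

/-- the Euclidean speed -/
theorem seg_speed {c : ℝ → E3} {p q : E3} (hc : IsSegment g c p q) {t : ℝ}
    (ht : t ∈ Set.Icc (0 : ℝ) 1) : ‖deriv c t‖ ≤ rho g p q / Real.sqrt a := by
  have h1 := h.lower (c t) (deriv c t) (path_norm hc.path ht) (path_perp hc.path ht)
  rw [seg_sq h hc ht] at h1
  have ha := h.a_pos
  rw [le_div_iff₀ (Real.sqrt_pos.2 ha)]
  refine le_of_sq_le_sq ?_ (rho_nonneg _ _ _)
  rw [mul_pow, Real.sq_sqrt ha.le]
  linarith

theorem seg_lip {c : ℝ → E3} {p q : E3} (hc : IsSegment g c p q) {s t : ℝ}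
    (hs : s ∈ Set.Icc (0 : ℝ) 1) (ht : t ∈ Set.Icc (0 : ℝ) 1) :
    ‖c t - c s‖ ≤ rho g p q / Real.sqrt a * |t - s| := by
  have hd : ∀ s, HasDerivAt c (deriv c s) s := fun s =>
    ((hc.path.c1.differentiable one_ne_zero) s).hasDerivAt
  have := (convex_Icc (0 : ℝ) 1).norm_image_sub_le_of_norm_hasDerivWithin_le
    (fun x _ => (hd x).hasDerivWithinAt) (fun x hx => seg_speed h hc hx) hs ht
  simpa [Real.norm_eq_abs] using this

theorem metric_lip {c : ℝ → E3} {p q : E3} (hc : IsSegment g c p q) {s t : ℝ}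
    (hs : s ∈ Set.Icc (0 : ℝ) 1) (ht : t ∈ Set.Icc (0 : ℝ) 1) :
    ‖g.toFun (c t) - g.toFun (c s)‖ ≤ B * (rho g p q / Real.sqrt a) * |t - s| := by
  have hd : ∀ s, HasDerivAt c (deriv c s) s := fun s =>
    ((hc.path.c1.differentiable one_ne_zero) s).hasDerivAt
  have h0 : ∀ s ∈ Set.Icc (0 : ℝ) 1, c s ≠ 0 := fun s hs h => by
    have := path_norm hc.path hs
    rw [h, norm_zero] at this
    exact zero_ne_one this
  have := (convex_Icc (0 : ℝ) 1).norm_image_sub_le_of_norm_hasDerivWithin_le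
    (f := fun t => g.toFun (c t)) (f' := fun t => fderiv ℝ g.toFun (c t) (deriv c t))
    (C := B * (rho g p q / Real.sqrt a))
    (fun x hx => ((hasFDerivAt g (h0 x hx)).comp_hasDerivAt x (hd x)).hasDerivWithinAt)
    (fun x hx => by
      refine (ContinuousLinearMap.le_opNorm _ _).trans ?_
      have h1 := h.dupper (c x) (path_norm hc.path hx)
      have h2 := seg_speed h hc hx
      have h3 := h.B_nonneg
      gcongr) hs ht
  simpa [Real.norm_eq_abs] using this

theorem KK_bound {x v : E3} (hx : ‖x‖ = 1) {e b : E3} (he : ‖e‖ = 1) (hb : ‖b‖ = 1)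
    (heb : ⟪e, b⟫ = 0) : |KK g x v e b| ≤ (A + B) * ‖v‖ ^ 2 := by
  have h1 : |fderiv ℝ g.toFun x (Agen e b x) v v| ≤ B * ‖v‖ ^ 2 := by
    have e1 := (fderiv ℝ g.toFun x (Agen e b x)).le_opNorm₂ v v
    rw [Real.norm_eq_abs] at e1
    refine e1.trans ?_
    have e2 := (fderiv ℝ g.toFun x).le_opNorm (Agen e b x)
    have e3 := Agen_norm_le he hb heb x
    rw [hx] at e3
    have e4 := h.dupper x hx
    have e5 : ‖fderiv ℝ g.toFun x (Agen e b x)‖ ≤ B * 1 :=
      e2.trans (mul_le_mul e4 e3 (norm_nonneg _) h.B_nonneg)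
    calc ‖fderiv ℝ g.toFun x (Agen e b x)‖ * ‖v‖ * ‖v‖
        ≤ (B * 1) * ‖v‖ * ‖v‖ := by gcongr
      _ = B * ‖v‖ ^ 2 := by ring
  have h2 : |g.toFun x (Agen e b v) v| ≤ A * ‖v‖ ^ 2 := by
    refine (upper_apply h hx _ _).trans ?_
    have e3 := Agen_norm_le he hb heb v
    have := h.A_pos
    calc A * ‖Agen e b v‖ * ‖v‖ ≤ A * ‖v‖ * ‖v‖ := by gcongr
      _ = _ := by ring
  have hB := h.B_nonneg
  unfold KK
  rw [abs_le] at h1 h2 ⊢
  have : 0 ≤ B * ‖v‖ ^ 2 := by positivity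
  constructor <;> nlinarith

/-- the momenta vary slowly -/
theorem mom_lip {c : ℝ → E3} {p q : E3} (hc : IsSegment g c p q) {s t : ℝ}
    (hs : s ∈ Set.Icc (0 : ℝ) 1) (ht : t ∈ Set.Icc (0 : ℝ) 1) {e b : E3} (he : ‖e‖ = 1)
    (hb : ‖b‖ = 1) (heb : ⟪e, b⟫ = 0) :
    |g.toFun (c t) (Agen e b (c t)) (deriv c t) - g.toFun (c s) (Agen e b (c s)) (deriv c s)| ≤
      (A + B) * (rho g p q / Real.sqrt a) ^ 2 * |t - s| := by
  have hK : Continuous fun t => KK g (c (cl t)) (deriv c (cl t)) e b := by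
    have hAc : Continuous (fun p : E3 => Agen e b p) := (Agen e b).continuous
    have hxc : Continuous fun t => c (cl t) := hc.path.c1.continuous.comp cl_cont
    have hvc : Continuous fun t => deriv c (cl t) :=
      (hc.path.c1.continuous_deriv le_rfl).comp cl_cont
    have hgx := cont_comp g hxc (path_ne hc.path)
    have hgx' := cont_fderiv_comp g hxc (path_ne hc.path)
    unfold KK
    exact (continuous_const.mul (((hgx'.clm_apply (hAc.comp hxc)).clm_apply hvc).clm_apply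
      hvc)).add ((hgx.clm_apply (hAc.comp hvc)).clm_apply hvc)
  have h1 := el g hc he hb heb ht
  have h2 := el g hc he hb heb hs
  rw [h1, h2, add_sub_add_left_eq_sub, intervalIntegral.integral_interval_sub_left
    (hK.intervalIntegrable _ _) (hK.intervalIntegrable _ _)]
  have h3 : ∀ r ∈ Set.uIoc s t, ‖KK g (c (cl r)) (deriv c (cl r)) e b‖ ≤
      (A + B) * (rho g p q / Real.sqrt a) ^ 2 := by
    intro r _
    rw [Real.norm_eq_abs]
    refine (KK_bound h (path_norm hc.path (cl_mem r)) he hb heb).trans ?_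
    have h4 := seg_speed h hc (cl_mem r)
    have h5 : 0 ≤ A + B := add_nonneg h.A_pos.le h.B_nonneg
    gcongr
  have := intervalIntegral.norm_integral_le_of_norm_le_const h3
  rwa [Real.norm_eq_abs] at this

/-- the velocity of a segment is Lipschitz continuous -/
theorem vel_lip {c : ℝ → E3} {p q : E3} (hc : IsSegment g c p q) {s t : ℝ}
    (hs : s ∈ Set.Icc (0 : ℝ) 1) (ht : t ∈ Set.Icc (0 : ℝ) 1) :
    ‖deriv c t - deriv c s‖ ≤
      (2 * (A + B) / a + 1) * (rho g p q / Real.sqrt a) ^ 2 * |t - s| := by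
  set L := rho g p q / Real.sqrt a with hL
  have ha := h.a_pos
  have hA := h.A_pos
  have hB := h.B_nonneg
  have hL0 : 0 ≤ L := div_nonneg (rho_nonneg _ _ _) (Real.sqrt_nonneg _)
  have hts : 0 ≤ |t - s| := abs_nonneg _
  have hnt := path_norm hc.path ht
  have hns := path_norm hc.path hs
  have hpt := path_perp hc.path ht
  have hps := path_perp hc.path hs
  have hlip := seg_lip h hc hs ht
  have hvs := seg_speed h hc hs
  rw [← hL] at hlip hvs
  have htt : ⟪c t, c t⟫ = 1 := by rw [real_inner_self_eq_norm_sq, hnt]; norm_num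
  set w := deriv c t - deriv c s with hw
  set wT := w - ⟪c t, w⟫ • c t with hwT
  have hwTp : ⟪c t, wT⟫ = 0 := by
    rw [hwT, inner_sub_right, inner_smul_right, htt]; ring
  have hnor : |⟪c t, w⟫| ≤ L ^ 2 * |t - s| := by
    have e1 : ⟪c t, w⟫ = - ⟪c t - c s, deriv c s⟫ := by
      rw [hw, inner_sub_right, inner_sub_left, hpt, hps]; ring
    rw [e1, abs_neg]
    refine (abs_real_inner_le_norm _ _).trans ?_
    calc ‖c t - c s‖ * ‖deriv c s‖ ≤ (L * |t - s|) * L := by gcongr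
      _ = _ := by ring
  have htan : ‖wT‖ ≤ 2 * (A + B) / a * L ^ 2 * |t - s| := by
    by_cases hz : wT = 0
    · rw [hz, norm_zero]
      positivity
    have hn : 0 < ‖wT‖ := norm_pos_iff.2 hz
    set b := ‖wT‖⁻¹ • wT with hbdef
    have hb : ‖b‖ = 1 := by rw [hbdef, norm_smul, norm_inv, norm_norm, inv_mul_cancel₀ hn.ne']
    have heb : ⟪c t, b⟫ = 0 := by rw [hbdef, inner_smul_right, hwTp, mul_zero]
    have hwb : wT = ‖wT‖ • b := by
      rw [hbdef, smul_smul, mul_inv_cancel₀ hn.ne', one_smul]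
    clear_value b
    have hAb : Agen (c t) b (c t) = b := by
      rw [Agen_apply, htt, one_smul, real_inner_comm, heb, zero_smul, sub_zero]
    have hm := mom_lip h hc hs ht hnt hb heb
    rw [hAb, ← hL] at hm
    have e1 : ‖Agen (c t) b (c s) - b‖ ≤ L * |t - s| := by
      have : Agen (c t) b (c s) - b = Agen (c t) b (c s - c t) := by rw [map_sub, hAb]
      rw [this]
      refine (Agen_norm_le hnt hb heb _).trans ?_
      rw [norm_sub_rev]
      exact hlip
    have e2 : |g.toFun (c s) (Agen (c t) b (c s) - b) (deriv c s)| ≤ A * L ^ 2 * |t - s| := by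
      refine (upper_apply h hns _ _).trans ?_
      calc A * ‖Agen (c t) b (c s) - b‖ * ‖deriv c s‖ ≤ A * (L * |t - s|) * L := by gcongr
        _ = _ := by ring
    have e3 : |(g.toFun (c t) - g.toFun (c s)) b (deriv c s)| ≤ B * L ^ 2 * |t - s| := by
      have e4 := (g.toFun (c t) - g.toFun (c s)).le_opNorm₂ b (deriv c s)
      rw [Real.norm_eq_abs, hb, mul_one] at e4
      refine e4.trans ?_
      have e5 := metric_lip h hc hs ht
      rw [← hL] at e5
      calc ‖g.toFun (c t) - g.toFun (c s)‖ * ‖deriv c s‖ ≤ (B * L * |t - s|) * L := by gcongr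
        _ = _ := by ring
    have e6 : g.toFun (c t) b w = (g.toFun (c t) b (deriv c t) -
        g.toFun (c s) (Agen (c t) b (c s)) (deriv c s)) +
        g.toFun (c s) (Agen (c t) b (c s) - b) (deriv c s) -
        (g.toFun (c t) - g.toFun (c s)) b (deriv c s) := by
      rw [hw]
      simp only [map_sub, sub_apply]
      ring
    have e7 : g.toFun (c t) b w = ‖wT‖ * g.toFun (c t) b b := by
      have e8 : w = ‖wT‖ • b + ⟪c t, w⟫ • c t := by rw [← hwb, hwT]; abel
      have e9 : g.toFun (c t) b w = g.toFun (c t) b (‖wT‖ • b + ⟪c t, w⟫ • c t) := by rw [← e8]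
      rw [e9, map_add, map_smul, map_smul, normal', smul_eq_mul, smul_zero, add_zero]
    have e10 := h.lower (c t) b hnt heb
    rw [hb] at e10
    have e11 : g.toFun (c t) b w ≤ 2 * (A + B) * L ^ 2 * |t - s| := by
      rw [e6]
      have := abs_le.1 hm
      have := abs_le.1 e2
      have := abs_le.1 e3
      nlinarith
    rw [e7] at e11
    have e12 : a * ‖wT‖ ≤ 2 * (A + B) * L ^ 2 * |t - s| := by nlinarith
    have e13 : ‖wT‖ ≤ (2 * (A + B) * L ^ 2 * |t - s|) / a := by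
      rw [le_div_iff₀ ha]; linarith
    refine e13.trans (le_of_eq ?_)
    ring
  have hfin : w = wT + ⟪c t, w⟫ • c t := by rw [hwT]; abel
  calc ‖w‖ = ‖wT + ⟪c t, w⟫ • c t‖ := by rw [← hfin]
    _ ≤ ‖wT‖ + ‖⟪c t, w⟫ • c t‖ := norm_add_le _ _
    _ = ‖wT‖ + |⟪c t, w⟫| := by rw [norm_smul, hnt, mul_one, Real.norm_eq_abs]
    _ ≤ 2 * (A + B) / a * L ^ 2 * |t - s| + L ^ 2 * |t - s| := add_le_add htan hnor
    _ = _ := by ring

/-- `c 1` is close to `c 0 + c' 0`, quadratically -/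
theorem seg_taylor {c : ℝ → E3} {p q : E3} (hc : IsSegment g c p q) :
    ‖c 1 - c 0 - deriv c 0‖ ≤ (2 * (A + B) / a + 1) * (rho g p q / Real.sqrt a) ^ 2 := by
  have hd : ∀ s, HasDerivAt c (deriv c s) s := fun s =>
    ((hc.path.c1.differentiable one_ne_zero) s).hasDerivAt
  have h0m : (0 : ℝ) ∈ Set.Icc (0 : ℝ) 1 := ⟨le_rfl, zero_le_one⟩
  have h1m : (1 : ℝ) ∈ Set.Icc (0 : ℝ) 1 := ⟨zero_le_one, le_rfl⟩
  have hC : 0 ≤ (2 * (A + B) / a + 1) * (rho g p q / Real.sqrt a) ^ 2 := by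
    have := h.a_pos
    have := h.A_pos
    have := h.B_nonneg
    positivity
  have := (convex_Icc (0 : ℝ) 1).norm_image_sub_le_of_norm_hasDerivWithin_le
    (f := fun t => c t - t • deriv c 0) (f' := fun t => deriv c t - deriv c 0)
    (C := (2 * (A + B) / a + 1) * (rho g p q / Real.sqrt a) ^ 2)
    (fun x _ => by
      have e1 : HasDerivAt (fun t : ℝ => t • deriv c 0) (deriv c 0) x := by
        simpa using (hasDerivAt_id x).smul_const (deriv c 0)
      exact ((hd x).sub e1).hasDerivWithinAt)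
    (fun x hx => by
      refine (vel_lip h hc h0m hx).trans ?_
      rw [sub_zero, abs_of_nonneg hx.1]
      exact mul_le_of_le_one_right hC hx.2) h0m h1m
  have e2 : c 1 - (1 : ℝ) • deriv c 0 - (c 0 - (0 : ℝ) • deriv c 0) = c 1 - c 0 - deriv c 0 := by
    rw [one_smul, zero_smul]; abel
  rw [e2] at this
  simpa using this

theorem rho_upper {x y : E3} (hx : ‖x‖ = 1) (hy : ‖y‖ = 1) :
    rho g y x ≤ Real.sqrt A * Real.pi := by
  obtain ⟨s, b, hs0, hsπ, hb, hyb, rfl⟩ := exists_dir hy hx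
  refine (rho_le g (arc_path hy hb hyb s)).trans ?_
  unfold len
  have hbd : ∀ t ∈ Set.uIoc (0 : ℝ) 1, ‖Real.sqrt (g.toFun (gc y b (s * t))
      (deriv (fun t => gc y b (s * t)) t) (deriv (fun t => gc y b (s * t)) t))‖ ≤
      Real.sqrt A * Real.pi := by
    intro t _
    have h1 : HasDerivAt (fun t : ℝ => s * t) s t := by
      simpa using (hasDerivAt_id t).const_mul s
    have h2 := (gc_deriv y b h1).deriv
    have h3 : ‖-(Real.sin (s * t)) • y + Real.cos (s * t) • b‖ = 1 := by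
      have h4 := gc_norm hy hb hyb (s * t + Real.pi / 2)
      rw [gc, Real.cos_add_pi_div_two, Real.sin_add_pi_div_two] at h4
      exact h4
    have h5 : ‖deriv (fun t => gc y b (s * t)) t‖ = s := by
      rw [h2, norm_smul, h3, mul_one, Real.norm_eq_abs s, abs_of_nonneg hs0]
    rw [Real.norm_eq_abs, abs_of_nonneg (Real.sqrt_nonneg _), ← Real.sqrt_sq Real.pi_pos.le,
      ← Real.sqrt_mul h.A_pos.le]
    refine Real.sqrt_le_sqrt ?_
    refine (le_abs_self _).trans ((upper_apply h (gc_norm hy hb hyb _) _ _).trans ?_)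
    rw [h5, mul_assoc, ← pow_two]
    have := h.A_pos
    gcongr
  have := intervalIntegral.norm_integral_le_of_norm_le_const hbd
  rw [Real.norm_eq_abs] at this
  refine (le_abs_self _).trans (this.trans ?_)
  simp

/-- Two segments which leave a point in opposite directions and meet again are not short. -/
theorem opposite_long {c₁ c₂ : ℝ → E3} {p q : E3} (h1 : IsSegment g c₁ p q)
    (h2 : IsSegment g c₂ p q) (hpq : p ≠ q) (hop : deriv c₁ 0 = - deriv c₂ 0) :
    a / (Real.sqrt A * (2 * (A + B) / a + 1)) ≤ rho g p q := by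
  have ha := h.a_pos
  have hA := h.A_pos
  have hB := h.B_nonneg
  set d := rho g p q with hd
  set M := 2 * (A + B) / a + 1 with hM
  have hM0 : 0 < M := by positivity
  have h0m : (0 : ℝ) ∈ Set.Icc (0 : ℝ) 1 := ⟨le_rfl, zero_le_one⟩
  have h1m : (1 : ℝ) ∈ Set.Icc (0 : ℝ) 1 := ⟨zero_le_one, le_rfl⟩
  have hd0 : 0 < d := by
    rcases (rho_nonneg g p q).eq_or_lt with h3 | h3
    · exfalso
      apply hpq
      have h4 := seg_lip h h1 h0m h1m
      rw [← h3, zero_div, zero_mul] at h4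
      have h5 := norm_le_zero_iff.1 h4
      rw [h1.path.start, h1.path.finish] at h5
      exact (sub_eq_zero.1 h5).symm
    · exact h3
  have t1 := seg_taylor h h1
  have t2 := seg_taylor h h2
  rw [h1.path.start, h1.path.finish] at t1
  rw [h2.path.start, h2.path.finish] at t2
  have hdd : (d / Real.sqrt a) ^ 2 = d ^ 2 / a := by rw [div_pow, Real.sq_sqrt ha.le]
  rw [← hd, ← hM, hdd] at t1 t2
  have h5 : ‖deriv c₁ 0‖ ≤ M * (d ^ 2 / a) := by
    have e1 : (2 : ℝ) • deriv c₁ 0 = (q - p - deriv c₂ 0) - (q - p - deriv c₁ 0) := by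
      rw [hop, two_smul]; abel
    have e2 : ‖(2 : ℝ) • deriv c₁ 0‖ ≤ M * (d ^ 2 / a) + M * (d ^ 2 / a) := by
      rw [e1]
      exact (norm_sub_le _ _).trans (add_le_add t2 t1)
    rw [norm_smul, Real.norm_eq_abs, abs_of_pos (by norm_num : (0 : ℝ) < 2)] at e2
    linarith
  have h6 : d ≤ Real.sqrt A * ‖deriv c₁ 0‖ := by
    have e1 := seg_sq h h1 h0m
    have e2 := upper_apply h (path_norm h1.path h0m) (deriv c₁ 0) (deriv c₁ 0)
    refine le_of_sq_le_sq ?_ (by positivity)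
    rw [mul_pow, Real.sq_sqrt hA.le, hd, ← e1]
    refine (le_abs_self _).trans (e2.trans (le_of_eq (by ring)))
  have h7 : d ≤ Real.sqrt A * (M * (d ^ 2 / a)) := h6.trans (by gcongr)
  have hsA : 0 < Real.sqrt A := Real.sqrt_pos.2 hA
  rw [div_le_iff₀ (by positivity)]
  have h8 : Real.sqrt A * (M * (d ^ 2 / a)) = d * (Real.sqrt A * M * d) / a := by ring
  rw [h8, le_div_iff₀ ha] at h7
  have h9 : a ≤ Real.sqrt A * M * d := by
    by_contra hcon
    push Not at hcon
    nlinarith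
  linarith

end

end Pool.Agent.K6.H75.OM
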