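import Mathlib
import Pool.Agent.K6.H75.OM.Est

/-!
Limits of segments of a convergent sequence of Riemannian metrics on the sphere.
-/

set_option maxSynthPendingDepth 3

open scoped RealInnerProductSpace Topology
open MeasureTheory Filter

namespace Pool.Agent.K6.H75.OM

open Pool.Agent.V11191.Opp (E3 IsPath Agen rot rot_zero rot_norm rot_curve rot_hasDerivAt
  deriv_param_integral Agen_rot Agen_apply Agen_norm_le gc gc_norm gc_deriv exists_dir arc_path
  rot_sub_le)

/-- uniform convergence of the metrics on the sphere -/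
def Conv (G : ℕ → SphereMetric) (g : SphereMetric) : Prop :=
  ∀ ε : ℝ, 0 < ε → ∀ᶠ n in atTop, ∀ x : E3, ‖x‖ = 1 → ‖(G n).toFun x - g.toFun x‖ ≤ ε

theorem Conv.comp {G : ℕ → SphereMetric} {g : SphereMetric} (h : Conv G g) {φ : ℕ → ℕ}
    (hφ : Tendsto φ atTop atTop) : Conv (fun n => G (φ n)) g := fun ε hε =>
  hφ.eventually (h ε hε)

theorem Conv.tendsto {G : ℕ → SphereMetric} {g : SphereMetric} (h : Conv G g) {x : ℕ → E3}
    {X : E3} (hx : ∀ n, ‖x n‖ = 1) (hX : ‖X‖ = 1) (hlim : Tendsto x atTop (𝓝 X)) :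
    Tendsto (fun n => (G n).toFun (x n)) atTop (𝓝 (g.toFun X)) := by
  have hX0 : X ≠ 0 := by rintro rfl; simp at hX
  have h1 : Tendsto (fun n => g.toFun (x n)) atTop (𝓝 (g.toFun X)) :=
    (hasFDerivAt g hX0).continuousAt.tendsto.comp hlim
  have h2 : Tendsto (fun n => (G n).toFun (x n) - g.toFun (x n)) atTop (𝓝 0) := by
    rw [tendsto_zero_iff_norm_tendsto_zero, Metric.tendsto_atTop]
    intro ε hε
    obtain ⟨N, hN⟩ := eventually_atTop.1 (h (ε / 2) (by positivity))
    refine ⟨N, fun n hn => ?_⟩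
    have := hN n hn (x n) (hx n)
    rw [Real.dist_eq, sub_zero, abs_of_nonneg (norm_nonneg _)]
    linarith
  have h3 := h2.add h1
  simpa using h3

theorem apply_tendsto {E F : Type*} [NormedAddCommGroup E] [NormedSpace ℝ E]
    [NormedAddCommGroup F] [NormedSpace ℝ F] {f : ℕ → E →L[ℝ] F} {f₀ : E →L[ℝ] F} {x : ℕ → E}
    {x₀ : E} (hf : Tendsto f atTop (𝓝 f₀)) (hx : Tendsto x atTop (𝓝 x₀)) :
    Tendsto (fun n => f n (x n)) atTop (𝓝 (f₀ x₀)) :=
  ((isBoundedBilinearMap_apply (𝕜 := ℝ) (E := E) (F := F)).continuous.tendsto (f₀, x₀)).comp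
    (hf.prodMk_nhds hx)

theorem Conv.tendsto₂ {G : ℕ → SphereMetric} {g : SphereMetric} (h : Conv G g) {x v w : ℕ → E3}
    {X V W : E3} (hx : ∀ n, ‖x n‖ = 1) (hX : ‖X‖ = 1) (hlim : Tendsto x atTop (𝓝 X))
    (hv : Tendsto v atTop (𝓝 V)) (hw : Tendsto w atTop (𝓝 W)) :
    Tendsto (fun n => (G n).toFun (x n) (v n) (w n)) atTop (𝓝 (g.toFun X V W)) :=
  apply_tendsto (apply_tendsto (h.tendsto hx hX hlim) hv) hw

/-- a rotation which carries `p` to `q` -/
theorem exists_rot {p q : E3} (hp : ‖p‖ = 1) (hq : ‖q‖ = 1) :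
    ∃ b : E3, ‖b‖ = 1 ∧ ⟪p, b⟫ = 0 ∧ rot p b (Real.arccos ⟪p, q⟫) p = q := by
  obtain ⟨s, b, hs0, hsπ, hb, hpb, hq'⟩ := exists_dir hp hq
  have hpp : ⟪p, p⟫ = 1 := by rw [real_inner_self_eq_norm_sq, hp]; norm_num
  have hcos : ⟪p, q⟫ = Real.cos s := by
    rw [hq', gc, inner_add_right, inner_smul_right, inner_smul_right, hpp, hpb]; ring
  refine ⟨b, hb, hpb, ?_⟩
  have hbp : ⟪b, p⟫ = 0 := by rw [real_inner_comm]; exact hpb
  rw [hcos, Real.arccos_cos hs0 hsπ, hq', gc, rot, hpp, hbp]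
  module

theorem arccos_tendsto {p q : ℕ → E3} {r : E3} (hr : ‖r‖ = 1) (hp : Tendsto p atTop (𝓝 r))
    (hq : Tendsto q atTop (𝓝 r)) : Tendsto (fun n => Real.arccos ⟪p n, q n⟫) atTop (𝓝 0) := by
  have h1 : Tendsto (fun n => ⟪p n, q n⟫) atTop (𝓝 ⟪r, r⟫) := hp.inner hq
  rw [real_inner_self_eq_norm_sq, hr, one_pow] at h1
  have h2 := (Real.continuous_arccos.tendsto 1).comp h1
  rwa [Real.arccos_one] at h2

/-- the lengths of slightly moved paths -/
theorem limsup_rho {G : ℕ → SphereMetric} {g : SphereMetric} (h : Conv G g) {a A B : ℝ}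
    (hb : ∀ n, Bd (G n) a A B) {p q : ℕ → E3} {P Q : E3} (hp : ∀ n, ‖p n‖ = 1)
    (hq : ∀ n, ‖q n‖ = 1) (hP : Tendsto p atTop (𝓝 P)) (hQ : Tendsto q atTop (𝓝 Q))
    {ρ : ℝ} (hρ : Tendsto (fun n => rho (G n) (p n) (q n)) atTop (𝓝 ρ)) {d : ℝ → E3}
    (hd : IsPath d P Q) : ρ ≤ len g d := by
  have hPn : ‖P‖ = 1 := tendsto_nhds_unique hP.norm (by simp only [hp]; exact tendsto_const_nhds)
  have hQn : ‖Q‖ = 1 := tendsto_nhds_unique hQ.norm (by simp only [hq]; exact tendsto_const_nhds)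
  choose b hb1 hb2 hb3 using fun n => exists_rot hPn (hp n)
  set θ : ℕ → ℝ := fun n => Real.arccos ⟪P, p n⟫ with hθ
  have hθ0 : ∀ n, 0 ≤ θ n := fun n => Real.arccos_nonneg _
  have hθlim : Tendsto θ atTop (𝓝 0) := arccos_tendsto hPn tendsto_const_nhds hP
  set q' : ℕ → E3 := fun n => rot P (b n) (θ n) Q with hq'
  have hq'n : ∀ n, ‖q' n‖ = 1 := fun n => by
    rw [hq']; simp only [rot_norm hPn (hb1 n) (hb2 n), hQn]
  have hq'lim : Tendsto q' atTop (𝓝 Q) := by
    rw [tendsto_iff_norm_sub_tendsto_zero]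
    refine squeeze_zero (fun n => norm_nonneg _) (fun n => ?_) hθlim
    have := rot_sub_le hPn (hb1 n) (hb2 n) (hθ0 n) Q
    rwa [hQn, one_mul] at this
  choose b' hb'1 hb'2 hb'3 using fun n => exists_rot (hq'n n) (hq n)
  set θ' : ℕ → ℝ := fun n => Real.arccos ⟪q' n, q n⟫ with hθ'
  have hθ'0 : ∀ n, 0 ≤ θ' n := fun n => Real.arccos_nonneg _
  have hθ'lim : Tendsto θ' atTop (𝓝 0) := arccos_tendsto hQn hq'lim hQ
  -- the moved path
  set D : ℕ → ℝ → E3 := fun n t => rot (q' n) (b' n) (t * θ' n) (rot P (b n) (θ n) (d t)) with hD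
  set D' : ℕ → ℝ → E3 := fun n t => rot (q' n) (b' n) (t * θ' n)
    (rot P (b n) (θ n) (deriv d t) + θ' n • Agen (q' n) (b' n) (rot P (b n) (θ n) (d t))) with hD'
  have hdd : ∀ t, HasDerivAt d (deriv d t) t := fun t =>
    ((hd.c1.differentiable one_ne_zero) t).hasDerivAt
  have hder : ∀ n t, HasDerivAt (D n) (D' n t) t := by
    intro n t
    have e1 : HasDerivAt (fun t => rot P (b n) (θ n) (d t)) (rot P (b n) (θ n) (deriv d t)) t := by
      have := rot_curve hPn (hb1 n) (hb2 n) (hasDerivAt_const t (θ n)) (hdd t)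
      simpa using this
    have e2 : HasDerivAt (fun t : ℝ => t * θ' n) (θ' n) t := by
      simpa using (hasDerivAt_id t).mul_const (θ' n)
    exact rot_curve (hq'n n) (hb'1 n) (hb'2 n) e2 e1
  have hdc : Continuous d := hd.c1.continuous
  have hdc' : Continuous (deriv d) := hd.c1.continuous_deriv le_rfl
  have hD'c : ∀ n, Continuous (D' n) := by
    intro n
    simp only [hD']
    unfold rot
    fun_prop
  have hDn : ∀ n, ∀ t ∈ Set.Icc (0 : ℝ) 1, ‖D n t‖ = 1 := by
    intro n t ht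
    simp only [hD, rot_norm (hq'n n) (hb'1 n) (hb'2 n), rot_norm hPn (hb1 n) (hb2 n),
      path_norm hd ht]
  have hpath : ∀ n, IsPath (D n) (p n) (q n) := by
    intro n
    refine ⟨?_, ?_, ?_, ?_⟩
    · rw [contDiff_one_iff_deriv]
      refine ⟨fun t => (hder n t).differentiableAt, ?_⟩
      have : deriv (D n) = D' n := by funext t; exact (hder n t).deriv
      rw [this]
      exact hD'c n
    · intro t ht
      rw [mem_sphere_zero_iff_norm]
      exact hDn n t ht
    · simp only [hD, zero_mul, rot_zero, hd.start]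
      exact hb3 n
    · simp only [hD, one_mul, hd.finish]
      exact hb'3 n
  -- convergence
  have hDlim : ∀ t ∈ Set.Icc (0 : ℝ) 1, Tendsto (fun n => D n t) atTop (𝓝 (d t)) := by
    intro t ht
    rw [tendsto_iff_norm_sub_tendsto_zero]
    have hlim : Tendsto (fun n => t * θ' n + θ n) atTop (𝓝 0) := by
      simpa using (hθ'lim.const_mul t).add hθlim
    refine squeeze_zero (fun n => norm_nonneg _) (fun n => ?_) hlim
    have e1 := rot_sub_le (hq'n n) (hb'1 n) (hb'2 n) (mul_nonneg ht.1 (hθ'0 n))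
      (rot P (b n) (θ n) (d t))
    have e2 := rot_sub_le hPn (hb1 n) (hb2 n) (hθ0 n) (d t)
    rw [rot_norm hPn (hb1 n) (hb2 n), path_norm hd ht, one_mul] at e1
    rw [path_norm hd ht, one_mul] at e2
    calc ‖D n t - d t‖ = ‖(D n t - rot P (b n) (θ n) (d t)) +
          (rot P (b n) (θ n) (d t) - d t)‖ := by rw [sub_add_sub_cancel]
      _ ≤ t * θ' n + θ n := (norm_add_le _ _).trans (add_le_add e1 e2)
  have hD'lim : ∀ t ∈ Set.Icc (0 : ℝ) 1, Tendsto (fun n => D' n t) atTop (𝓝 (deriv d t)) := by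
    intro t ht
    rw [tendsto_iff_norm_sub_tendsto_zero]
    have hlim : Tendsto (fun n => (‖deriv d t‖ + θ' n) * (t * θ' n) + (‖deriv d t‖ * θ n + θ' n))
        atTop (𝓝 0) := by
      have e1 := (hθ'lim.const_add ‖deriv d t‖).mul (hθ'lim.const_mul t)
      have e2 := (hθlim.const_mul ‖deriv d t‖).add hθ'lim
      have e3 := e1.add e2
      simpa using e3
    refine squeeze_zero (fun n => norm_nonneg _) (fun n => ?_) hlim
    set V := rot P (b n) (θ n) (deriv d t) with hV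
    set W := Agen (q' n) (b' n) (rot P (b n) (θ n) (d t)) with hW
    have hVn : ‖V‖ = ‖deriv d t‖ := by rw [hV, rot_norm hPn (hb1 n) (hb2 n)]
    have hWn : ‖W‖ ≤ 1 := by
      have := Agen_norm_le (hq'n n) (hb'1 n) (hb'2 n) (rot P (b n) (θ n) (d t))
      rwa [rot_norm hPn (hb1 n) (hb2 n), path_norm hd ht] at this
    have hVW : ‖V + θ' n • W‖ ≤ ‖deriv d t‖ + θ' n := by
      refine (norm_add_le _ _).trans ?_
      rw [hVn, norm_smul, Real.norm_eq_abs, abs_of_nonneg (hθ'0 n)]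
      have := mul_le_mul_of_nonneg_left hWn (hθ'0 n)
      linarith
    have e1 := rot_sub_le (hq'n n) (hb'1 n) (hb'2 n) (mul_nonneg ht.1 (hθ'0 n))
      (V + θ' n • W)
    have e2 := rot_sub_le hPn (hb1 n) (hb2 n) (hθ0 n) (deriv d t)
    have e3 : ‖V + θ' n • W - deriv d t‖ ≤ ‖deriv d t‖ * θ n + θ' n := by
      have : V + θ' n • W - deriv d t = (V - deriv d t) + θ' n • W := by abel
      rw [this]
      refine (norm_add_le _ _).trans (add_le_add e2 ?_)
      rw [norm_smul, Real.norm_eq_abs, abs_of_nonneg (hθ'0 n)]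
      exact mul_le_of_le_one_right (hθ'0 n) hWn
    calc ‖D' n t - deriv d t‖ = ‖(D' n t - (V + θ' n • W)) +
          (V + θ' n • W - deriv d t)‖ := by rw [sub_add_sub_cancel]
      _ ≤ ‖D' n t - (V + θ' n • W)‖ + ‖V + θ' n • W - deriv d t‖ := norm_add_le _ _
      _ ≤ (‖deriv d t‖ + θ' n) * (t * θ' n) + (‖deriv d t‖ * θ n + θ' n) := by
          refine add_le_add (e1.trans ?_) e3
          exact mul_le_mul_of_nonneg_right hVW (mul_nonneg ht.1 (hθ'0 n))
  -- convergence of the lengths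
  obtain ⟨C, hC⟩ := isCompact_Icc.exists_bound_of_continuousOn
    (hdc'.continuousOn (s := Set.Icc (0 : ℝ) 1))
  have hA := (hb 0).A_pos
  have hlen : Tendsto (fun n => len (G n) (D n)) atTop (𝓝 (len g d)) := by
    unfold len
    refine intervalIntegral.tendsto_integral_filter_of_dominated_convergence
      (fun _ => Real.sqrt A * (C + Real.pi)) ?_ ?_ ?_ ?_
    · refine Eventually.of_forall fun n => ?_
      have hc := (speed_cont (G n) (hpath n)).sqrt
      refine (hc.aestronglyMeasurable.restrict).congr ?_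
      refine (ae_restrict_iff' measurableSet_uIoc).2 (Eventually.of_forall fun t ht => ?_)
      rw [Set.uIoc_of_le zero_le_one] at ht
      simp only [cl_eq ⟨ht.1.le, ht.2⟩]
    · refine Eventually.of_forall fun n => Eventually.of_forall fun t ht => ?_
      rw [Set.uIoc_of_le zero_le_one] at ht
      have ht' : t ∈ Set.Icc (0 : ℝ) 1 := ⟨ht.1.le, ht.2⟩
      have e1 := upper_apply (hb n) (hDn n t ht') (deriv (D n) t) (deriv (D n) t)
      have e2 : ‖deriv (D n) t‖ ≤ C + Real.pi := by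
        rw [(hder n t).deriv, hD']
        simp only [rot_norm (hq'n n) (hb'1 n) (hb'2 n)]
        refine (norm_add_le _ _).trans (add_le_add ?_ ?_)
        · rw [rot_norm hPn (hb1 n) (hb2 n)]
          exact hC t ht'
        · rw [norm_smul, Real.norm_eq_abs, abs_of_nonneg (hθ'0 n)]
          have e3 := Agen_norm_le (hq'n n) (hb'1 n) (hb'2 n) (rot P (b n) (θ n) (d t))
          rw [rot_norm hPn (hb1 n) (hb2 n), path_norm hd ht'] at e3
          calc θ' n * ‖Agen (q' n) (b' n) (rot P (b n) (θ n) (d t))‖ ≤ Real.pi * 1 :=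
              mul_le_mul (Real.arccos_le_pi _) e3 (norm_nonneg _) Real.pi_pos.le
            _ = Real.pi := mul_one _
      have hCπ : 0 ≤ C + Real.pi := (norm_nonneg _).trans e2
      rw [Real.norm_eq_abs, abs_of_nonneg (Real.sqrt_nonneg _), ← Real.sqrt_sq hCπ,
        ← Real.sqrt_mul hA.le]
      refine Real.sqrt_le_sqrt ((le_abs_self _).trans (e1.trans ?_))
      rw [mul_assoc, ← pow_two]
      gcongr
    · exact intervalIntegrable_const
    · refine Eventually.of_forall fun t ht => ?_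
      rw [Set.uIoc_of_le zero_le_one] at ht
      have ht' : t ∈ Set.Icc (0 : ℝ) 1 := ⟨ht.1.le, ht.2⟩
      have e1 : ∀ n, deriv (D n) t = D' n t := fun n => (hder n t).deriv
      simp only [e1]
      refine (Real.continuous_sqrt.tendsto _).comp ?_
      exact h.tendsto₂ (fun n => hDn n t ht') (path_norm hd ht') (hDlim t ht') (hD'lim t ht')
        (hD'lim t ht')
  exact le_of_tendsto_of_tendsto' hρ hlen fun n => rho_le (G n) (hpath n)

end Pool.Agent.K6.H75.OM
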