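import Mathlib
import Pool.Agent.K6.H75.OM.Lim

/-!
The limits of the segments of a convergent sequence of Riemannian metrics are segments.
-/

set_option maxSynthPendingDepth 3

open scoped RealInnerProductSpace Topology
open MeasureTheory Filter

namespace Pool.Agent.K6.H75.OM

open Pool.Agent.V11191.Opp (E3 IsPath)

theorem seg_limit {G : ℕ → SphereMetric} {g : SphereMetric} (h : Conv G g) {a A B : ℝ}
    (hb : ∀ n, Bd (G n) a A B) {p q : ℕ → E3} {P Q : E3}
    (hP : Tendsto p atTop (𝓝 P)) (hQ : Tendsto q atTop (𝓝 Q))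
    {ρ : ℝ} (hρ : Tendsto (fun n => rho (G n) (p n) (q n)) atTop (𝓝 ρ)) {c : ℕ → ℝ → E3}
    (hc : ∀ n, IsSegment (G n) (c n) (p n) (q n)) :
    rho g P Q = ρ ∧ ∃ C : ℝ → E3, IsSegment g C P Q ∧ ∃ φ : ℕ → ℕ, StrictMono φ ∧
      Tendsto (fun n => deriv (c (φ n)) 0) atTop (𝓝 (deriv C 0)) := by
  have h0m : (0 : ℝ) ∈ Set.Icc (0 : ℝ) 1 := ⟨le_rfl, zero_le_one⟩
  have h1m : (1 : ℝ) ∈ Set.Icc (0 : ℝ) 1 := ⟨zero_le_one, le_rfl⟩
  have ha := (hb 0).a_pos
  have hA := (hb 0).A_pos
  have hB := (hb 0).B_nonneg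
  have hpn : ∀ n, ‖p n‖ = 1 := fun n => by
    rw [← (hc n).path.start]; exact path_norm (hc n).path h0m
  have hqn : ∀ n, ‖q n‖ = 1 := fun n => by
    rw [← (hc n).path.finish]; exact path_norm (hc n).path h1m
  set R := Real.sqrt A * Real.pi with hR
  have hρR : ∀ n, rho (G n) (p n) (q n) ≤ R := fun n => rho_upper (hb n) (hqn n) (hpn n)
  set V := R / Real.sqrt a with hV
  have hsa : 0 < Real.sqrt a := Real.sqrt_pos.2 ha
  have hρV : ∀ n, rho (G n) (p n) (q n) / Real.sqrt a ≤ V := fun n =>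
    div_le_div_of_nonneg_right (hρR n) hsa.le
  have hρ0 : ∀ n, 0 ≤ rho (G n) (p n) (q n) / Real.sqrt a := fun n =>
    div_nonneg (rho_nonneg _ _ _) hsa.le
  set M := 2 * (A + B) / a + 1 with hM
  have hM0 : 0 < M := by positivity
  have hdc : ∀ n, Continuous (deriv (c n)) := fun n => (hc n).path.c1.continuous_deriv le_rfl
  have hdd : ∀ n t, HasDerivAt (c n) (deriv (c n) t) t := fun n t =>
    (((hc n).path.c1.differentiable one_ne_zero) t).hasDerivAt
  set f : ℕ → BoundedContinuousFunction (Set.Icc (0 : ℝ) 1) E3 := fun n =>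
    BoundedContinuousFunction.mkOfCompact ⟨fun t => deriv (c n) t,
      (hdc n).comp continuous_subtype_val⟩ with hf
  have hfa : ∀ n (t : Set.Icc (0 : ℝ) 1), f n t = deriv (c n) t := fun n t => rfl
  have hK : IsCompact (closure (Set.range f)) := by
    refine BoundedContinuousFunction.arzela_ascoli (Metric.closedBall 0 V)
      (isCompact_closedBall 0 V) _ ?_ ?_
    · rintro _ x ⟨n, rfl⟩
      rw [mem_closedBall_zero_iff, hfa]
      exact (seg_speed (hb n) (hc n) x.2).trans (hρV n)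
    · refine Metric.equicontinuous_of_continuity_modulus (fun r => M * V ^ 2 * r) ?_ _ ?_
      · have : Continuous fun r : ℝ => M * V ^ 2 * r := by fun_prop
        simpa using this.tendsto 0
      · rintro x y ⟨_, n, rfl⟩
        change dist (f n x) (f n y) ≤ M * V ^ 2 * dist x y
        rw [hfa, hfa, dist_eq_norm, Subtype.dist_eq, Real.dist_eq]
        refine (vel_lip (hb n) (hc n) y.2 x.2).trans ?_
        have := hρV n
        have := hρ0 n
        gcongr
  obtain ⟨F, _, φ, hφ, hFlim⟩ := hK.tendsto_subseq (fun n => subset_closure ⟨n, rfl⟩)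
  set D : ℝ → E3 := fun t => F ⟨cl t, cl_mem t⟩ with hD
  have hDc : Continuous D := F.continuous.comp (cl_cont.subtype_mk _)
  set C : ℝ → E3 := fun t => P + ∫ s in (0 : ℝ)..t, D s with hC
  have hCd : ∀ t, HasDerivAt C (D t) t := fun t =>
    (intervalIntegral.integral_hasDerivAt_right (hDc.intervalIntegrable _ _)
      (hDc.stronglyMeasurableAtFilter _ _) hDc.continuousAt).const_add P
  have hC0 : C 0 = P := by simp [hC]
  have hδ : Tendsto (fun n => dist (f (φ n)) F) atTop (𝓝 0) :=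
    tendsto_iff_dist_tendsto_zero.1 hFlim
  have hvd : ∀ n, ∀ t ∈ Set.Icc (0 : ℝ) 1, ‖deriv (c (φ n)) t - D t‖ ≤ dist (f (φ n)) F := by
    intro n t ht
    have h1 := BoundedContinuousFunction.dist_coe_le_dist (f := f (φ n)) (g := F) ⟨t, ht⟩
    have h2 : D t = F ⟨t, ht⟩ := by
      simp only [hD]
      congr 1
      exact Subtype.ext (cl_eq ht)
    rwa [hfa, dist_eq_norm, ← h2] at h1
  have hvlim : ∀ t ∈ Set.Icc (0 : ℝ) 1,
      Tendsto (fun n => deriv (c (φ n)) t) atTop (𝓝 (D t)) := by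
    intro t ht
    rw [tendsto_iff_norm_sub_tendsto_zero]
    exact squeeze_zero (fun n => norm_nonneg _) (fun n => hvd n t ht) hδ
  have hPφ : Tendsto (fun n => ‖p (φ n) - P‖) atTop (𝓝 0) :=
    (tendsto_iff_norm_sub_tendsto_zero.1 hP).comp hφ.tendsto_atTop
  have hclim : ∀ t ∈ Set.Icc (0 : ℝ) 1, Tendsto (fun n => c (φ n) t) atTop (𝓝 (C t)) := by
    intro t ht
    rw [tendsto_iff_norm_sub_tendsto_zero]
    have hlim : Tendsto (fun n => dist (f (φ n)) F * |t - 0| + ‖p (φ n) - P‖) atTop (𝓝 0) := by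
      have := (hδ.mul_const |t - 0|).add hPφ
      simpa using this
    refine squeeze_zero (fun n => norm_nonneg _) (fun n => ?_) hlim
    have h1 := (convex_Icc (0 : ℝ) 1).norm_image_sub_le_of_norm_hasDerivWithin_le
      (f := fun t => c (φ n) t - C t) (f' := fun t => deriv (c (φ n)) t - D t)
      (C := dist (f (φ n)) F)
      (fun x _ => ((hdd (φ n) x).sub (hCd x)).hasDerivWithinAt)
      (fun x hx => hvd n x hx) h0m ht
    rw [Real.norm_eq_abs] at h1
    have h2 : c (φ n) 0 - C 0 = p (φ n) - P := by rw [(hc (φ n)).path.start, hC0]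
    calc ‖c (φ n) t - C t‖ = ‖(c (φ n) t - C t - (c (φ n) 0 - C 0)) + (p (φ n) - P)‖ := by
          rw [h2, sub_add_cancel]
      _ ≤ _ := (norm_add_le _ _).trans (add_le_add h1 le_rfl)
  have hCn : ∀ t ∈ Set.Icc (0 : ℝ) 1, ‖C t‖ = 1 := by
    intro t ht
    have h1 := (hclim t ht).norm
    have h2 : ∀ n, ‖c (φ n) t‖ = 1 := fun n => path_norm (hc (φ n)).path ht
    simp only [h2] at h1
    exact (tendsto_nhds_unique h1 tendsto_const_nhds)
  have hC1 : C 1 = Q := by
    have h1 := hclim 1 h1m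
    have h2 : ∀ n, c (φ n) 1 = q (φ n) := fun n => (hc (φ n)).path.finish
    simp only [h2] at h1
    exact tendsto_nhds_unique h1 (hQ.comp hφ.tendsto_atTop)
  have hderC : deriv C = D := by funext t; exact (hCd t).deriv
  have hpath : IsPath C P Q := by
    refine ⟨?_, ?_, hC0, hC1⟩
    · rw [contDiff_one_iff_deriv, hderC]
      exact ⟨fun t => (hCd t).differentiableAt, hDc⟩
    · intro t ht
      rw [mem_sphere_zero_iff_norm]
      exact hCn t ht
  have hρφ : Tendsto (fun n => rho (G (φ n)) (p (φ n)) (q (φ n))) atTop (𝓝 ρ) :=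
    hρ.comp hφ.tendsto_atTop
  have hspeed : ∀ t ∈ Set.Icc (0 : ℝ) 1,
      Real.sqrt (g.toFun (C t) (deriv C t) (deriv C t)) = ρ := by
    intro t ht
    rw [hderC]
    have h1 : Tendsto (fun n => Real.sqrt ((G (φ n)).toFun (c (φ n) t) (deriv (c (φ n)) t)
        (deriv (c (φ n)) t))) atTop (𝓝 (Real.sqrt (g.toFun (C t) (D t) (D t)))) := by
      refine (Real.continuous_sqrt.tendsto _).comp ?_
      exact (h.comp hφ.tendsto_atTop).tendsto₂ (fun n => path_norm (hc (φ n)).path ht) (hCn t ht)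
        (hclim t ht) (hvlim t ht) (hvlim t ht)
    have h2 : ∀ n, Real.sqrt ((G (φ n)).toFun (c (φ n) t) (deriv (c (φ n)) t)
        (deriv (c (φ n)) t)) = rho (G (φ n)) (p (φ n)) (q (φ n)) := fun n =>
      (hc (φ n)).speed t ht
    simp only [h2] at h1
    exact tendsto_nhds_unique h1 hρφ
  have hlen : len g C = ρ := by
    unfold len
    rw [int_congr (g := fun _ => ρ) hspeed]
    simp
  have hge : ρ ≤ rho g P Q := by
    refine le_csInf ⟨_, C, hpath, rfl⟩ ?_
    rintro L ⟨d, hd, rfl⟩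
    exact limsup_rho h hb hpn hqn hP hQ hρ hd
  have hle : rho g P Q ≤ ρ := (rho_le g hpath).trans hlen.le
  have heq : rho g P Q = ρ := le_antisymm hle hge
  refine ⟨heq, C, ⟨hpath, fun t ht => by rw [heq]; exact hspeed t ht⟩, φ, hφ, ?_⟩
  rw [hderC]
  exact hvlim 0 h0m

end Pool.Agent.K6.H75.OM
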