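import Mathlib
import Pool.Agent.K6.H75.OM.Lim2

/-!
Property (O) is a closed condition in the `C^∞` topology (even in the `C¹` topology).
-/

set_option maxSynthPendingDepth 3

open scoped RealInnerProductSpace Topology UniformConvergence
open MeasureTheory Filter

namespace Pool.Agent.K6.H75.OM

open Pool.Agent.V11191.Opp (E3 IsPath exists_tangent)

theorem exists_Bd (g : SphereMetric) : ∃ a A B, Bd g a A B := by
  have hne0 : ∀ x : E3, ‖x‖ = 1 → x ≠ 0 := by rintro x hx rfl; simp at hx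
  -- lower bound
  set K : Set (E3 × E3) := {z | ‖z.1‖ = 1 ∧ ‖z.2‖ = 1 ∧ ⟪z.1, z.2⟫ = 0} with hK
  have hKc : IsCompact K := by
    refine IsCompact.of_isClosed_subset ((isCompact_sphere (0 : E3) 1).prod
      (isCompact_sphere (0 : E3) 1)) ?_ ?_
    · exact (isClosed_eq (continuous_fst.norm) continuous_const).inter
        ((isClosed_eq (continuous_snd.norm) continuous_const).inter
          (isClosed_eq (continuous_fst.inner continuous_snd) continuous_const))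
    · rintro ⟨x, v⟩ ⟨h1, h2, _⟩
      exact ⟨by simpa using h1, by simpa using h2⟩
  have hKn : K.Nonempty := by
    obtain ⟨x, hx⟩ := exists_norm_eq E3 (zero_le_one (α := ℝ))
    obtain ⟨τ, h1, h2⟩ := exists_tangent x
    exact ⟨(x, τ), hx, h1, h2⟩
  have hcont : ContinuousOn (fun z : E3 × E3 => g.toFun z.1 z.2 z.2) K := by
    have h1 : ContinuousOn (fun z : E3 × E3 => g.toFun z.1) K :=
      g.smooth.continuousOn.comp continuous_fst.continuousOn fun z hz => by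
        simpa using hne0 _ hz.1
    exact (h1.clm_apply continuous_snd.continuousOn).clm_apply continuous_snd.continuousOn
  obtain ⟨z, hz, hmin⟩ := hKc.exists_isMinOn hKn hcont
  have hapos : 0 < g.toFun z.1 z.2 z.2 :=
    g.pos z.1 z.2 (hne0 _ hz.1) hz.2.2 fun h => by
      have := hz.2.1
      rw [h, norm_zero] at this
      exact zero_ne_one this
  obtain ⟨A, hA⟩ := (isCompact_sphere (0 : E3) 1).exists_bound_of_continuousOn
    (f := g.toFun) (g.smooth.continuousOn.mono fun x hx => by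
      simpa using hne0 x (by simpa using hx))
  obtain ⟨B, hB⟩ := (isCompact_sphere (0 : E3) 1).exists_bound_of_continuousOn
    (f := fderiv ℝ g.toFun) ((g.smooth.continuousOn_fderiv_of_isOpen isOpen_compl
      (by simp)).mono fun x hx => by simpa using hne0 x (by simpa using hx))
  refine ⟨g.toFun z.1 z.2 z.2, |A| + 1, |B|, hapos, by positivity, abs_nonneg _, ?_, ?_, ?_⟩
  · intro x v hx hxv
    by_cases hv : v = 0
    · simp [hv]
    have hn : ‖v‖ ≠ 0 := norm_ne_zero_iff.2 hv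
    have hmem : (x, ‖v‖⁻¹ • v) ∈ K :=
      ⟨hx, by rw [norm_smul, norm_inv, norm_norm, inv_mul_cancel₀ hn],
        by rw [inner_smul_right, hxv, mul_zero]⟩
    have h1 : g.toFun z.1 z.2 z.2 ≤ g.toFun x (‖v‖⁻¹ • v) (‖v‖⁻¹ • v) := hmin hmem
    rw [map_smul, map_smul, smul_apply, smul_eq_mul, smul_eq_mul] at h1
    have h2 : g.toFun x v v = ‖v‖ ^ 2 * (‖v‖⁻¹ * (‖v‖⁻¹ * g.toFun x v v)) := by
      field_simp
    rw [h2, mul_comm]
    gcongr
  · intro x hx
    have := hA x (by simpa using hx)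
    exact this.trans ((le_abs_self A).trans (by linarith))
  · intro x hx
    have := hB x (by simpa using hx)
    exact this.trans (le_abs_self B)

/-- uniform convergence of the first derivatives of the metrics on the sphere -/
def Conv' (G : ℕ → SphereMetric) (g : SphereMetric) : Prop :=
  ∀ ε : ℝ, 0 < ε → ∀ᶠ n in atTop, ∀ x : E3, ‖x‖ = 1 →
    ‖fderiv ℝ (G n).toFun x - fderiv ℝ g.toFun x‖ ≤ ε

theorem Bd.near {g g' : SphereMetric} {a A B : ℝ} (h : Bd g a A B)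
    (h1 : ∀ x : E3, ‖x‖ = 1 → ‖g'.toFun x - g.toFun x‖ ≤ min (a / 2) 1)
    (h2 : ∀ x : E3, ‖x‖ = 1 → ‖fderiv ℝ g'.toFun x - fderiv ℝ g.toFun x‖ ≤ 1) :
    Bd g' (a / 2) (A + 1) (B + 1) := by
  have ha := h.a_pos
  have hA := h.A_pos
  have hB := h.B_nonneg
  refine ⟨by positivity, by positivity, by positivity, ?_, ?_, ?_⟩
  · intro x v hx hxv
    have e1 := h.lower x v hx hxv
    have e2 := (g'.toFun x - g.toFun x).le_opNorm₂ v v
    rw [Real.norm_eq_abs] at e2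
    have e3 := (h1 x hx).trans (min_le_left _ _)
    have e4 : ‖g'.toFun x - g.toFun x‖ * ‖v‖ * ‖v‖ ≤ a / 2 * ‖v‖ ^ 2 := by
      rw [mul_assoc, ← pow_two]
      gcongr
    have e5 := (abs_le.1 (e2.trans e4)).1
    simp only [sub_apply] at e5
    linarith
  · intro x hx
    have e1 := h.upper x hx
    have e2 := (h1 x hx).trans (min_le_right _ _)
    calc ‖g'.toFun x‖ = ‖g.toFun x + (g'.toFun x - g.toFun x)‖ := by rw [add_sub_cancel]
      _ ≤ _ := (norm_add_le _ _).trans (add_le_add e1 e2)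
  · intro x hx
    have e1 := h.dupper x hx
    have e2 := h2 x hx
    calc ‖fderiv ℝ g'.toFun x‖ =
          ‖fderiv ℝ g.toFun x + (fderiv ℝ g'.toFun x - fderiv ℝ g.toFun x)‖ := by
          rw [add_sub_cancel]
      _ ≤ _ := (norm_add_le _ _).trans (add_le_add e1 e2)

/-- continuity of the derivatives in the `C^∞` topology -/
theorem tendsto_jet (g : SphereMetric) (S : Set SphereMetric) (k : ℕ) {ε : ℝ} (hε : 0 < ε) :
    ∀ᶠ g' in 𝓝[S] g, ∀ x : E3, ‖x‖ = 1 →
      ‖iteratedFDeriv ℝ k g'.toFun x - iteratedFDeriv ℝ k g.toFun x‖ ≤ ε := by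
  have h1 : Continuous (fun g : SphereMetric => UniformFun.ofFun
      fun x : Metric.sphere (0 : E3) 1 => iteratedFDeriv ℝ k g.toFun x) := by
    rw [continuous_iff_le_induced]
    exact iInf_le _ k
  have h2 : Tendsto (fun g : SphereMetric => UniformFun.ofFun
      fun x : Metric.sphere (0 : E3) 1 => iteratedFDeriv ℝ k g.toFun x) (𝓝[S] g)
      (𝓝 (UniformFun.ofFun
        fun x : Metric.sphere (0 : E3) 1 => iteratedFDeriv ℝ k g.toFun x)) :=
    (h1.tendsto g).mono_left nhdsWithin_le_nhds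
  rw [UniformFun.tendsto_iff_tendstoUniformly, Metric.tendstoUniformly_iff] at h2
  filter_upwards [h2 ε hε] with g' hg' x hx
  have := hg' ⟨x, by simpa using hx⟩
  rw [dist_comm, dist_eq_norm] at this
  exact this.le

theorem norm_zero_jet (f f' : E3 → Form) (x : E3) :
    ‖f x - f' x‖ ≤ ‖iteratedFDeriv ℝ 0 f x - iteratedFDeriv ℝ 0 f' x‖ := by
  have h := (iteratedFDeriv ℝ 0 f x - iteratedFDeriv ℝ 0 f' x).le_opNorm 0
  simpa using h

theorem norm_one_jet (f f' : E3 → Form) (x : E3) :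
    ‖fderiv ℝ f x - fderiv ℝ f' x‖ ≤ ‖iteratedFDeriv ℝ 1 f x - iteratedFDeriv ℝ 1 f' x‖ := by
  refine ContinuousLinearMap.opNorm_le_bound _ (norm_nonneg _) fun v => ?_
  have h := (iteratedFDeriv ℝ 1 f x - iteratedFDeriv ℝ 1 f' x).le_opNorm fun _ => v
  simpa [iteratedFDeriv_one_apply] using h

theorem exists_seq {g : SphereMetric} {S : Set SphereMetric} (hg : g ∈ closure S) :
    ∃ G : ℕ → SphereMetric, (∀ n, G n ∈ S) ∧ Conv G g ∧ Conv' G g := by
  have hne : (𝓝[S] g).NeBot := mem_closure_iff_nhdsWithin_neBot.1 hg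
  have h : ∀ n : ℕ, ∃ g' ∈ S, (∀ x : E3, ‖x‖ = 1 → ‖g'.toFun x - g.toFun x‖ ≤ 1 / (n + 1)) ∧
      ∀ x : E3, ‖x‖ = 1 → ‖fderiv ℝ g'.toFun x - fderiv ℝ g.toFun x‖ ≤ 1 / (n + 1) := by
    intro n
    have hpos : (0 : ℝ) < 1 / (n + 1) := by positivity
    obtain ⟨g', ⟨h0, h1⟩, h2⟩ := (((tendsto_jet g S 0 hpos).and (tendsto_jet g S 1 hpos)).and
      self_mem_nhdsWithin).exists
    exact ⟨g', h2, fun x hx => (norm_zero_jet _ _ x).trans (h0 x hx),
      fun x hx => (norm_one_jet _ _ x).trans (h1 x hx)⟩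
  choose G hS h0 h1 using h
  have hev : ∀ ε : ℝ, 0 < ε → ∀ᶠ n : ℕ in atTop, 1 / ((n : ℝ) + 1) ≤ ε := fun ε hε =>
    (tendsto_one_div_add_atTop_nhds_zero_nat (𝕜 := ℝ)).eventually_le_const hε
  exact ⟨G, hS, fun ε hε => (hev ε hε).mono fun n hn x hx => (h0 n x hx).trans hn,
    fun ε hε => (hev ε hε).mono fun n hn x hx => (h1 n x hx).trans hn⟩

/-- opposite tangent directions of segments of the same length -/
theorem opposite {g : SphereMetric} {y v w : E3} {ρ : ℝ} (hy : ‖y‖ = 1) (hv : ⟪y, v⟫ = 0)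
    (hw : ⟪y, w⟫ = 0) (h1 : Real.sqrt (g.toFun y v v) = ρ) (h2 : Real.sqrt (g.toFun y w w) = ρ)
    (h : angle g y v w = Real.pi) : v = - w := by
  have hy0 : y ≠ 0 := by rintro rfl; simp at hy
  unfold angle at h
  rw [h1, h2, Real.arccos_eq_pi] at h
  have hρ : 0 < ρ := by
    rcases (h1 ▸ Real.sqrt_nonneg _ : (0 : ℝ) ≤ ρ).eq_or_lt with h3 | h3
    · rw [← h3] at h
      norm_num at h
    · exact h3
  rw [div_le_iff₀ (by positivity)] at h
  have e1 : g.toFun y v v = ρ ^ 2 := by rw [← h1, Real.sq_sqrt (nonneg g hy _)]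
  have e2 : g.toFun y w w = ρ ^ 2 := by rw [← h2, Real.sq_sqrt (nonneg g hy _)]
  by_contra hne
  have h4 : v + w ≠ 0 := fun h5 => hne (eq_neg_of_add_eq_zero_left h5)
  have h5 := g.pos y (v + w) hy0 (by rw [inner_add_right, hv, hw, add_zero]) h4
  simp only [map_add, add_apply] at h5
  rw [g.symm y w v, e1, e2] at h5
  nlinarith

/-- Property (O) is preserved by `C¹` limits. -/
theorem O_of_limit {G₀ : ℕ → SphereMetric} {g : SphereMetric} (hS₀ : ∀ n, PropertyO (G₀ n))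
    (hconv₀ : Conv G₀ g) (hconv'₀ : Conv' G₀ g) : PropertyO g := by
  obtain ⟨a₀, A₀, B₀, hbd₀⟩ := exists_Bd g
  -- uniform bounds
  obtain ⟨N, hN⟩ := eventually_atTop.1 ((hconv₀ (min (a₀ / 2) 1)
    (lt_min (half_pos hbd₀.a_pos) one_pos)).and (hconv'₀ 1 one_pos))
  set a := a₀ / 2
  set A := A₀ + 1
  set B := B₀ + 1
  set G₁ : ℕ → SphereMetric := fun n => G₀ (n + N) with hG₁
  have hbd₁ : ∀ n, Bd (G₁ n) a A B := fun n =>
    hbd₀.near (hN (n + N) (Nat.le_add_left _ _)).1 (hN (n + N) (Nat.le_add_left _ _)).2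
  have hconv₁ : Conv G₁ g := hconv₀.comp (tendsto_add_atTop_nat N)
  have hS₁ : ∀ n, PropertyO (G₁ n) := fun n => hS₀ (n + N)
  have ha := (hbd₁ 0).a_pos
  have hA := (hbd₁ 0).A_pos
  have hB := (hbd₁ 0).B_nonneg
  choose x₁ hx₁ y₁ hy₁ hxy₁ hcrit₁ c₁ c₂ hc₁ hc₂ hang₁ using hS₁
  -- convergence of the points and of the distances
  set R := Real.sqrt A * Real.pi with hR
  have hcomp : IsCompact ((Metric.sphere (0 : E3) 1 ×ˢ Metric.sphere (0 : E3) 1) ×ˢ
      Set.Icc (0 : ℝ) R) :=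
    ((isCompact_sphere (0 : E3) 1).prod (isCompact_sphere (0 : E3) 1)).prod isCompact_Icc
  have hxn₁ : ∀ n, ‖x₁ n‖ = 1 := fun n => by simpa using hx₁ n
  have hyn₁ : ∀ n, ‖y₁ n‖ = 1 := fun n => by simpa using hy₁ n
  obtain ⟨⟨⟨X, Y⟩, ρ⟩, hlimmem, φ, hφ, hlim⟩ := hcomp.tendsto_subseq
    (x := fun n => ((x₁ n, y₁ n), rho (G₁ n) (y₁ n) (x₁ n)))
    (fun n => ⟨⟨hx₁ n, hy₁ n⟩, rho_nonneg _ _ _, rho_upper (hbd₁ n) (hxn₁ n) (hyn₁ n)⟩)
  have hXlim : Tendsto (fun n => x₁ (φ n)) atTop (𝓝 X) :=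
    (continuous_fst.tendsto _).comp ((continuous_fst.tendsto _).comp hlim)
  have hYlim : Tendsto (fun n => y₁ (φ n)) atTop (𝓝 Y) :=
    (continuous_snd.tendsto _).comp ((continuous_fst.tendsto _).comp hlim)
  have hρlim : Tendsto (fun n => rho (G₁ (φ n)) (y₁ (φ n)) (x₁ (φ n))) atTop (𝓝 ρ) :=
    (continuous_snd.tendsto _).comp hlim
  have hX : ‖X‖ = 1 := by simpa using hlimmem.1.1
  have hY : ‖Y‖ = 1 := by simpa using hlimmem.1.2
  have hconv : Conv (fun n => G₁ (φ n)) g := hconv₁.comp hφ.tendsto_atTop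
  -- opposite velocities
  have h0m : (0 : ℝ) ∈ Set.Icc (0 : ℝ) 1 := ⟨le_rfl, zero_le_one⟩
  have hperp : ∀ n (c : ℝ → E3), IsSegment (G₁ n) c (y₁ n) (x₁ n) → ⟪y₁ n, deriv c 0⟫ = 0 := by
    intro n c hc
    have := path_perp hc.path h0m
    rwa [hc.path.start] at this
  have hsp : ∀ n (c : ℝ → E3), IsSegment (G₁ n) c (y₁ n) (x₁ n) →
      Real.sqrt ((G₁ n).toFun (y₁ n) (deriv c 0) (deriv c 0)) = rho (G₁ n) (y₁ n) (x₁ n) := by
    intro n c hc
    have := hc.speed 0 h0m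
    rwa [hc.path.start] at this
  have hop : ∀ n, deriv (c₁ n) 0 = - deriv (c₂ n) 0 := fun n =>
    opposite (hyn₁ n) (hperp n _ (hc₁ n)) (hperp n _ (hc₂ n)) (hsp n _ (hc₁ n))
      (hsp n _ (hc₂ n)) (hang₁ n)
  have hlow : ∀ n, a / (Real.sqrt A * (2 * (A + B) / a + 1)) ≤ rho (G₁ n) (y₁ n) (x₁ n) :=
    fun n => opposite_long (hbd₁ n) (hc₁ n) (hc₂ n) (hxy₁ n).symm (hop n)
  have hρpos : 0 < ρ := by
    have h1 : 0 < a / (Real.sqrt A * (2 * (A + B) / a + 1)) := by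
      have := Real.sqrt_pos.2 hA
      positivity
    exact h1.trans_le (ge_of_tendsto' hρlim fun n => hlow (φ n))
  -- the first segment
  obtain ⟨hrho, C₁, hC₁, φ₁, hφ₁, hder₁⟩ := seg_limit hconv (fun n => hbd₁ (φ n)) hYlim hXlim
    hρlim (fun n => hc₁ (φ n))
  obtain ⟨-, C₂, hC₂, φ₂, hφ₂, hder₂⟩ := seg_limit (hconv.comp hφ₁.tendsto_atTop)
    (fun n => hbd₁ (φ (φ₁ n))) (hYlim.comp hφ₁.tendsto_atTop) (hXlim.comp hφ₁.tendsto_atTop)
    (hρlim.comp hφ₁.tendsto_atTop) (fun n => hc₂ (φ (φ₁ n)))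
  have hCop : deriv C₁ 0 = - deriv C₂ 0 := by
    have h1 : Tendsto (fun n => deriv (c₁ (φ (φ₁ (φ₂ n)))) 0) atTop (𝓝 (deriv C₁ 0)) :=
      hder₁.comp hφ₂.tendsto_atTop
    have h2 : Tendsto (fun n => - deriv (c₂ (φ (φ₁ (φ₂ n)))) 0) atTop (𝓝 (- deriv C₂ 0)) :=
      hder₂.neg
    simp only [← hop] at h2
    exact tendsto_nhds_unique h1 h2
  have hsq : ∀ C : ℝ → E3, IsSegment g C Y X → g.toFun Y (deriv C 0) (deriv C 0) = ρ ^ 2 := by
    intro C hC
    have h1 := hC.speed 0 h0m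
    rw [hC.path.start, hrho] at h1
    rw [← h1, Real.sq_sqrt (nonneg g hY _)]
  refine ⟨X, by simpa using hX, Y, by simpa using hY, ?_, ?_, C₁, C₂, hC₁, hC₂, ?_⟩
  · -- the points are different
    rintro rfl
    have h1 : IsPath (fun _ => X) X X :=
      ⟨contDiff_const, fun _ _ => by simpa using hX, rfl, rfl⟩
    have h2 := rho_le g h1
    have h3 : len g (fun _ => X) = 0 := by
      unfold len
      simp
    rw [h3, hrho] at h2
    exact absurd h2 (not_le.2 hρpos)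
  · -- the point is critical
    intro τ hτ hYτ
    set τ' : ℕ → E3 := fun n => τ - ⟪y₁ (φ n), τ⟫ • y₁ (φ n) with hτ'
    have hτ'lim : Tendsto τ' atTop (𝓝 τ) := by
      have h1 : Tendsto (fun n => ⟪y₁ (φ n), τ⟫) atTop (𝓝 ⟪Y, τ⟫) :=
        hYlim.inner tendsto_const_nhds
      have h2 := (h1.smul hYlim).const_sub τ
      rw [hYτ, zero_smul, sub_zero] at h2
      exact h2
    have hτ'perp : ∀ n, ⟪y₁ (φ n), τ' n⟫ = 0 := by
      intro n
      rw [hτ']
      simp only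
      rw [inner_sub_right, inner_smul_right, real_inner_self_eq_norm_sq, hyn₁]
      ring
    have hex : ∀ n, ∃ c, IsSegment (G₁ (φ n)) c (y₁ (φ n)) (x₁ (φ n)) ∧
        0 ≤ (G₁ (φ n)).toFun (y₁ (φ n)) (deriv c 0) (τ' n) := by
      intro n
      by_cases hz : τ' n = 0
      · exact ⟨c₁ (φ n), hc₁ (φ n), by rw [hz, map_zero]⟩
      obtain ⟨c, hc, hang⟩ := hcrit₁ (φ n) (τ' n) hz (hτ'perp n)
      refine ⟨c, hc, ?_⟩
      unfold angle at hang
      rw [Real.arccos_le_pi_div_two] at hang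
      by_contra hneg
      push Not at hneg
      have hne1 : 0 < (G₁ (φ n)).toFun (y₁ (φ n)) (τ' n) (τ' n) :=
        (G₁ (φ n)).pos _ _ (by
          intro h
          have := hyn₁ (φ n)
          rw [h, norm_zero] at this
          exact zero_ne_one this) (hτ'perp n) hz
      have hne2 : 0 < Real.sqrt ((G₁ (φ n)).toFun (y₁ (φ n)) (deriv c 0) (deriv c 0)) := by
        rw [hsp (φ n) c hc]
        have h1 : 0 < a / (Real.sqrt A * (2 * (A + B) / a + 1)) := by
          have := Real.sqrt_pos.2 hA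
          positivity
        exact h1.trans_le (hlow (φ n))
      have := div_neg_of_neg_of_pos hneg (mul_pos hne2 (Real.sqrt_pos.2 hne1))
      linarith
    choose c hc hge using hex
    obtain ⟨-, C, hC, ψ, hψ, hder⟩ := seg_limit hconv (fun n => hbd₁ (φ n)) hYlim hXlim
      hρlim hc
    refine ⟨C, hC, ?_⟩
    have h1 : Tendsto (fun n => (G₁ (φ (ψ n))).toFun (y₁ (φ (ψ n))) (deriv (c (ψ n)) 0)
        (τ' (ψ n))) atTop (𝓝 (g.toFun Y (deriv C 0) τ)) :=
      (hconv.comp hψ.tendsto_atTop).tendsto₂ (fun n => hyn₁ _) hY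
        (hYlim.comp hψ.tendsto_atTop) hder (hτ'lim.comp hψ.tendsto_atTop)
    have h2 : 0 ≤ g.toFun Y (deriv C 0) τ := ge_of_tendsto' h1 fun n => hge (ψ n)
    unfold angle
    rw [Real.arccos_le_pi_div_two]
    positivity
  · -- the angle
    unfold angle
    rw [Real.arccos_eq_pi]
    have h1 := hsq C₁ hC₁
    have h2 := hsq C₂ hC₂
    have h3 : g.toFun Y (deriv C₁ 0) (deriv C₂ 0) = - ρ ^ 2 := by
      have : deriv C₂ 0 = - deriv C₁ 0 := by rw [hCop, neg_neg]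
      rw [this, map_neg, h1]
    rw [h1, h2, h3, Real.sqrt_sq hρpos.le]
    refine le_of_eq ?_
    field_simp

/-- Property (O) is a closed condition. -/
theorem closed_O : IsClosed {g : SphereMetric | PropertyO g} := by
  refine isClosed_of_closure_subset fun g hg => ?_
  obtain ⟨G₀, hS₀, hconv₀, hconv'₀⟩ := exists_seq hg
  exact O_of_limit hS₀ hconv₀ hconv'₀

end Pool.Agent.K6.H75.OM
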