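import Mathlib
import Pool.Agent.K6.H75.OM.Closed
import Pool.Agent.V11191.Opp.Final

/-!
The metrics `e^{2φ} g₀` conformal to the round metric `g₀` of the sphere, and the metrics without
property (O).
-/

set_option maxSynthPendingDepth 3

open scoped RealInnerProductSpace Topology
open MeasureTheory Filter

namespace Pool.Agent.K6.H75.OM

open Pool.Agent.V11191.Opp (E3 IsPath)

/-- the scalar product of `ℝ³` -/
noncomputable def ip : Form :=
  (innerₗ E3).mkContinuous₂ 1 fun x y => by simpa using norm_inner_le_norm (𝕜 := ℝ) x y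

theorem ip_apply (v w : E3) : ip v w = ⟪v, w⟫ := rfl

/-- the round metric -/
noncomputable def round (x : E3) : Form :=
  ip - (‖x‖ ^ 2)⁻¹ • (ip x).smulRight (ip x)

theorem round_apply (x v w : E3) : round x v w = ⟪v, w⟫ - (‖x‖ ^ 2)⁻¹ * (⟪x, v⟫ * ⟪x, w⟫) := by
  simp [round, ip_apply]

/-- the conformal metric -/
noncomputable def confFun (φ : E3 → ℝ) (x : E3) : Form :=
  if x = 0 then 0 else Real.exp (2 * φ (‖x‖⁻¹ • x)) • round x

theorem confFun_of_ne {φ : E3 → ℝ} {x : E3} (hx : x ≠ 0) :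
    confFun φ x = Real.exp (2 * φ (‖x‖⁻¹ • x)) • round x := by
  simp [confFun, hx]

theorem conf_smooth {φ : E3 → ℝ} (hφ : ContDiff ℝ (⊤ : ℕ∞) φ) :
    ContDiffOn ℝ (⊤ : ℕ∞) (confFun φ) {0}ᶜ := by
  have h1 : ContDiffOn ℝ (⊤ : ℕ∞)
      (fun x : E3 => Real.exp (2 * φ (‖x‖⁻¹ • x)) • round x) {0}ᶜ := by
    have hn : ContDiffOn ℝ (⊤ : ℕ∞) (fun x : E3 => ‖x‖) {0}ᶜ := fun x hx =>
      (contDiffAt_norm ℝ (by simpa using hx)).contDiffWithinAt
    have hni : ContDiffOn ℝ (⊤ : ℕ∞) (fun x : E3 => ‖x‖⁻¹) {0}ᶜ :=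
      hn.inv fun x hx => norm_ne_zero_iff.2 (by simpa using hx)
    have hs : ContDiffOn ℝ (⊤ : ℕ∞) (fun x : E3 => ‖x‖⁻¹ • x) {0}ᶜ := hni.smul contDiffOn_id
    have he : ContDiffOn ℝ (⊤ : ℕ∞) (fun x : E3 => Real.exp (2 * φ (‖x‖⁻¹ • x))) {0}ᶜ :=
      (contDiffOn_const.mul (hφ.comp_contDiffOn hs)).exp
    have hsq : ContDiffOn ℝ (⊤ : ℕ∞) (fun x : E3 => (‖x‖ ^ 2)⁻¹) {0}ᶜ :=
      (hn.pow 2).inv fun x hx => pow_ne_zero 2 (norm_ne_zero_iff.2 (by simpa using hx))
    have hin : ContDiff ℝ (⊤ : ℕ∞) (fun x : E3 => ip x) := ip.contDiff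
    have hr : ContDiffOn ℝ (⊤ : ℕ∞)
        (fun x : E3 => (ip x).smulRight (ip x)) {0}ᶜ :=
      (hin.smulRight hin).contDiffOn
    have hround : ContDiffOn ℝ (⊤ : ℕ∞) round {0}ᶜ := contDiffOn_const.sub (hsq.smul hr)
    exact he.smul hround
  exact h1.congr fun x hx => confFun_of_ne (by simpa using hx)

/-- the conformal metric `e^{2φ} g₀` -/
noncomputable def conf {φ : E3 → ℝ} (hφ : ContDiff ℝ (⊤ : ℕ∞) φ) : SphereMetric where
  toFun := confFun φ
  smooth := conf_smooth hφ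
  ray := by
    intro t ht x
    by_cases hx : x = 0
    · simp [hx]
    have htx : t • x ≠ 0 := smul_ne_zero ht.ne' hx
    have hn : ‖x‖ ≠ 0 := norm_ne_zero_iff.2 hx
    rw [confFun_of_ne hx, confFun_of_ne htx]
    have h1 : ‖t • x‖⁻¹ • t • x = ‖x‖⁻¹ • x := by
      rw [norm_smul, Real.norm_eq_abs, abs_of_pos ht, smul_smul]
      congr 1
      field_simp
    have h2 : round (t • x) = round x := by
      ext v w
      rw [round_apply, round_apply, norm_smul, Real.norm_eq_abs, abs_of_pos ht, inner_smul_left,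
        inner_smul_left]
      simp only [RCLike.conj_to_real]
      field_simp
    rw [h1, h2]
  zero := by simp [confFun]
  symm := by
    intro x v w
    by_cases hx : x = 0
    · simp [hx, confFun]
    rw [confFun_of_ne hx]
    simp only [smul_apply, round_apply, smul_eq_mul]
    rw [real_inner_comm]
    ring
  normal := by
    intro x v
    by_cases hx : x = 0
    · simp [hx]
    have hn : ‖x‖ ≠ 0 := norm_ne_zero_iff.2 hx
    rw [confFun_of_ne hx]
    simp only [smul_apply, round_apply, smul_eq_mul]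
    rw [real_inner_self_eq_norm_sq]
    field_simp
    ring
  pos := by
    intro x v hx hxv hv
    rw [confFun_of_ne hx]
    simp only [smul_apply, round_apply, smul_eq_mul, hxv, zero_mul, mul_zero, sub_zero]
    have : 0 < ⟪v, v⟫ := real_inner_self_pos.2 hv
    positivity

variable {φ : E3 → ℝ} (hφ : ContDiff ℝ (⊤ : ℕ∞) φ)

theorem conf_apply {x v w : E3} (hx : ‖x‖ = 1) (hv : ⟪x, v⟫ = 0) :
    (conf hφ).toFun x v w = Real.exp (2 * φ x) * ⟪v, w⟫ := by
  have hx0 : x ≠ 0 := by rintro rfl; simp at hx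
  change confFun φ x v w = _
  rw [confFun_of_ne hx0]
  simp only [smul_apply, round_apply, smul_eq_mul, hv, zero_mul, mul_zero, sub_zero, hx, inv_one,
    one_smul]

theorem sqrt_conf {x v : E3} (hx : ‖x‖ = 1) (hv : ⟪x, v⟫ = 0) :
    Real.sqrt ((conf hφ).toFun x v v) = Real.exp (φ x) * ‖v‖ := by
  rw [conf_apply hφ hx hv, real_inner_self_eq_norm_sq]
  have : Real.exp (2 * φ x) * ‖v‖ ^ 2 = (Real.exp (φ x) * ‖v‖) ^ 2 := by
    rw [mul_pow, ← Real.exp_nat_mul]
    norm_num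
  rw [this, Real.sqrt_sq (by positivity)]

theorem len_conf {c : ℝ → E3} {p q : E3} (hc : IsPath c p q) :
    len (conf hφ) c = Pool.Agent.V11191.Opp.len φ c :=
  int_congr fun _ ht => sqrt_conf hφ (path_norm hc ht) (path_perp hc ht)

theorem rho_conf (p q : E3) : rho (conf hφ) p q = Pool.Agent.V11191.Opp.rho φ p q := by
  unfold rho Pool.Agent.V11191.Opp.rho
  congr 1
  ext L
  constructor
  · rintro ⟨c, hc, rfl⟩
    exact ⟨c, hc, len_conf hφ hc⟩
  · rintro ⟨c, hc, rfl⟩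
    exact ⟨c, hc, (len_conf hφ hc).symm⟩

theorem seg_conf {c : ℝ → E3} {p q : E3} (hc : IsSegment (conf hφ) c p q) :
    Pool.Agent.V11191.Opp.IsSegment φ c p q :=
  ⟨hc.path, fun t ht => by
    rw [← sqrt_conf hφ (path_norm hc.path ht) (path_perp hc.path ht), hc.speed t ht, rho_conf]⟩

theorem angle_conf {y v w : E3} (hy : ‖y‖ = 1) (hv : ⟪y, v⟫ = 0) (hw : ⟪y, w⟫ = 0) :
    angle (conf hφ) y v w = InnerProductGeometry.angle v w := by
  unfold angle InnerProductGeometry.angle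
  rw [sqrt_conf hφ hy hv, sqrt_conf hφ hy hw, conf_apply hφ hy hv]
  congr 1
  have h1 : Real.exp (2 * φ y) = Real.exp (φ y) * Real.exp (φ y) := by
    rw [← Real.exp_add]; congr 1; ring
  have h2 : Real.exp (φ y) * ‖v‖ * (Real.exp (φ y) * ‖w‖) =
      Real.exp (φ y) * Real.exp (φ y) * (‖v‖ * ‖w‖) := by ring
  rw [h1, h2, mul_div_mul_left]
  positivity

theorem O_conf (h : PropertyO (conf hφ)) : Pool.Agent.V11191.Opp.PropertyO φ := by
  obtain ⟨x, hx, y, hy, hxy, hcrit, c₁, c₂, hc₁, hc₂, hang⟩ := h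
  have hyn : ‖y‖ = 1 := by simpa using hy
  have h0m : (0 : ℝ) ∈ Set.Icc (0 : ℝ) 1 := ⟨le_rfl, zero_le_one⟩
  have hperp : ∀ c : ℝ → E3, IsSegment (conf hφ) c y x → ⟪y, deriv c 0⟫ = 0 := by
    intro c hc
    have := path_perp hc.path h0m
    rwa [hc.path.start] at this
  refine ⟨x, hx, y, hy, hxy, ?_, c₁, c₂, seg_conf hφ hc₁, seg_conf hφ hc₂, ?_⟩
  · intro τ hτ hτy
    have hyτ : ⟪y, τ⟫ = 0 := by rw [real_inner_comm]; exact hτy
    have hτ0 : τ ≠ 0 := by rintro rfl; simp at hτ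
    obtain ⟨c, hc, hle⟩ := hcrit τ hτ0 hyτ
    refine ⟨c, seg_conf hφ hc, ?_⟩
    rwa [angle_conf hφ hyn (hperp c hc) hyτ] at hle
  · rwa [angle_conf hφ hyn (hperp c₁ hc₁) (hperp c₂ hc₂)] at hang

theorem exists_not_O : ∃ g : SphereMetric, ¬ PropertyO g := by
  obtain ⟨φ, hφ, hO⟩ := Pool.Agent.V11191.Opp.main
  exact ⟨conf hφ, fun h => hO (O_conf hφ h)⟩

theorem not_dense_O : ¬ Dense {g : SphereMetric | PropertyO g} := by
  intro h
  obtain ⟨g, hg⟩ := exists_not_O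
  have h1 : closure {g : SphereMetric | PropertyO g} = Set.univ := h.closure_eq
  rw [closed_O.closure_eq] at h1
  exact hg (h1 ▸ Set.mem_univ g : g ∈ {g : SphereMetric | PropertyO g})

end Pool.Agent.K6.H75.OM
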