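import Mathlib
import Pool.Agent.V11191.Opp.Defs

/-!
Smooth Riemannian metrics on the two-sphere `S² ⊂ ℝ³`, the `C^∞` topology on the space of all of
them, lengths, intrinsic distance, segments, critical points and property (O).
-/

open scoped UniformConvergence

namespace Pool.Agent.K6.H75.OM3

open Pool.Agent.V11191.Opp (E3 IsPath)

/-- The function is smooth on `ℝ³ ∖ {0}`. -/
def Smooth (f : E3 → ℝ) : Prop := ContDiffOn ℝ (⊤ : ℕ∞) f {0}ᶜ

/-- The function is constant on every ray from the origin. -/
def ConstantOnRays (f : E3 → ℝ) : Prop := ∀ t : ℝ, 0 < t → ∀ x, f (t • x) = f x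

/-- The bilinear form with the matrix `a`. -/
def form (a : Fin 3 → Fin 3 → ℝ) (v w : E3) : ℝ := ∑ i, ∑ j, a i j * (v i * w j)

/-- The vector `v` is orthogonal to `x`: it is a tangent vector of the sphere at `x`. -/
def Tangent (x v : E3) : Prop := ∑ i, x i * v i = 0

/-- A smooth Riemannian metric on the sphere `S² ⊂ ℝ³`. The tangent plane at `x ∈ S²` is the
orthogonal complement of `x`, and `∑ coeff i j x * (v i * w j)` is the scalar product of the tangent
vectors `v` and `w` at `x`. To have exactly one symmetric matrix of coefficients for every metric,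
the bilinear form vanishes if one of its arguments is `x`, the coefficients are extended from `S²` to
`ℝ³ ∖ {0}` as functions which are constant on the rays, and they are `0` at the origin. The metric is
smooth if and only if these extensions are smooth on `ℝ³ ∖ {0}`. -/
structure SMetric where
  /-- the coefficients -/
  coeff : Fin 3 → Fin 3 → E3 → ℝ
  /-- the metric is smooth -/
  smooth : ∀ i j, Smooth (coeff i j)
  /-- the coefficients are constant on the rays -/
  ray : ∀ i j, ConstantOnRays (coeff i j)
  /-- the value at the origin -/
  zero : ∀ i j, coeff i j 0 = 0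
  /-- the forms are symmetric -/
  symm : ∀ i j x, coeff i j x = coeff j i x
  /-- normalization in the direction of `x` -/
  normal : ∀ x v, form (fun i j => coeff i j x) x v = 0
  /-- the forms are positive definite on the tangent planes -/
  pos : ∀ x v, x ≠ 0 → Tangent x v → v ≠ 0 → 0 < form (fun i j => coeff i j x) v v

/-- The scalar product of `v` and `w` at `x`. -/
def SMetric.scal (g : SMetric) (x v w : E3) : ℝ := form (fun i j => g.coeff i j x) v w

/-- The partial derivative with respect to the coordinate `i`. -/
noncomputable def partialD (i : Fin 3) (f : E3 → ℝ) (x : E3) : ℝ :=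
  lineDeriv ℝ f x (EuclideanSpace.single i 1)

/-- The iterated partial derivatives. -/
noncomputable def iterD : List (Fin 3) → (E3 → ℝ) → E3 → ℝ
  | [], f => f
  | i :: l, f => partialD i (iterD l f)

/-- The unit sphere of `ℝ³`. -/
def S2 : Set E3 := Metric.sphere 0 1

/-- The iterated partial derivatives of the coefficients of a metric, on the sphere. -/
noncomputable def SMetric.jet (l : List (Fin 3)) (i j : Fin 3) (g : SMetric) : S2 →ᵤ ℝ :=
  UniformFun.ofFun fun x => iterD l (g.coeff i j) x

/-- The `C^∞` topology on the space of all smooth Riemannian metrics on `S²`: uniform convergence,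
on `S²`, of the partial derivatives of all orders of the coefficients. -/
noncomputable instance : TopologicalSpace SMetric :=
  ⨅ l : List (Fin 3), ⨅ i : Fin 3, ⨅ j : Fin 3,
    TopologicalSpace.induced (SMetric.jet l i j) inferInstance

/-- Length of a `C¹` path on the sphere. -/
noncomputable def len (g : SMetric) (c : ℝ → E3) : ℝ :=
  ∫ t in (0 : ℝ)..1, Real.sqrt (g.scal (c t) (deriv c t) (deriv c t))

/-- Intrinsic distance: the infimum of the lengths of the `C¹` paths from `p` to `q`. -/
noncomputable def rho (g : SMetric) (p q : E3) : ℝ :=
  sInf {L | ∃ c, IsPath c p q ∧ L = len g c}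

/-- `c` is a segment from `p` to `q`, i.e. a shortest path, parametrized on `[0,1]` proportionally
to arc length: its speed is constant and equal to the distance, so that its length is the
distance. -/
structure IsSegment (g : SMetric) (c : ℝ → E3) (p q : E3) : Prop where
  /-- it is a path from `p` to `q` -/
  path : IsPath c p q
  /-- it has constant speed, equal to the distance from `p` to `q` -/
  speed : ∀ t ∈ Set.Icc (0 : ℝ) 1,
    Real.sqrt (g.scal (c t) (deriv c t) (deriv c t)) = rho g p q

/-- The angle of the tangent vectors `v` and `w` at `y`. -/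
noncomputable def angle (g : SMetric) (y v w : E3) : ℝ :=
  Real.arccos (g.scal y v w / (Real.sqrt (g.scal y v v) * Real.sqrt (g.scal y w w)))

/-- `y` is critical with respect to `x`: for every tangent direction `τ` at `y` some segment from
`y` to `x` has at `y` a tangent direction making an angle at most `π/2` with `τ`. -/
def IsCritical (g : SMetric) (x y : E3) : Prop :=
  ∀ τ : E3, τ ≠ 0 → Tangent y τ → ∃ c, IsSegment g c y x ∧ angle g y (deriv c 0) τ ≤ Real.pi / 2

/-- Property (O): there are points `x ≠ y` with `y` critical with respect to `x` and two segments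
from `y` to `x` whose tangent directions at `y` make the angle `π`. -/
def PropertyO (g : SMetric) : Prop :=
  ∃ x ∈ S2, ∃ y ∈ S2, x ≠ y ∧ IsCritical g x y ∧
    ∃ c₁ c₂, IsSegment g c₁ y x ∧ IsSegment g c₂ y x ∧
      angle g y (deriv c₁ 0) (deriv c₂ 0) = Real.pi

end Pool.Agent.K6.H75.OM3
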