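import Mathlib
import Pool.Agent.K6.H75.OM.Def3
import Pool.Agent.K6.H75.OM.Conf

/-!
The metrics given by coefficient matrices and the metrics given by bilinear maps.
-/

set_option maxSynthPendingDepth 3

open scoped RealInnerProductSpace Topology UniformConvergence
open MeasureTheory Filter

namespace Pool.Agent.K6.H75.OM3

open Pool.Agent.V11191.Opp (E3 IsPath)
open Pool.Agent.K6.H75.OM (Form SphereMetric Conv Conv' hasFDerivAt)

/-- elementary forms -/
noncomputable def E (i j : Fin 3) : Form :=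
  (EuclideanSpace.proj i : E3 →L[ℝ] ℝ).smulRight (EuclideanSpace.proj j : E3 →L[ℝ] ℝ)

theorem E_apply (i j : Fin 3) (v w : E3) : E i j v w = v i * w j := by
  simp [E]

/-- the bilinear form with given coefficients -/
noncomputable def toForm (a : Fin 3 → Fin 3 → ℝ) : Form := ∑ i, ∑ j, a i j • E i j

theorem toForm_apply (a : Fin 3 → Fin 3 → ℝ) (v w : E3) : toForm a v w = form a v w := by
  simp [toForm, form, E_apply]

theorem tangent_iff (x v : E3) : Tangent x v ↔ ⟪x, v⟫ = 0 := by
  unfold Tangent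
  rw [PiLp.inner_apply]
  simp only [RCLike.inner_apply, RCLike.conj_to_real, mul_comm]

/-- the metric as a bilinear map -/
noncomputable def T (g : SMetric) : SphereMetric where
  toFun x := toForm fun i j => g.coeff i j x
  smooth := by
    unfold toForm
    exact ContDiffOn.sum fun i _ => ContDiffOn.sum fun j _ => (g.smooth i j).smul contDiffOn_const
  ray t ht x := by
    congr 1
    funext i j
    exact g.ray i j t ht x
  zero := by
    unfold toForm
    simp [g.zero]
  symm x v w := by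
    rw [toForm_apply, toForm_apply]
    unfold form
    rw [Finset.sum_comm]
    refine Finset.sum_congr rfl fun i _ => Finset.sum_congr rfl fun j _ => ?_
    beta_reduce
    rw [g.symm j i]
    ring
  normal x v := by
    rw [toForm_apply]
    exact g.normal x v
  pos x v hx hxv hv := by
    rw [toForm_apply]
    exact g.pos x v hx ((tangent_iff x v).2 hxv) hv

theorem T_apply (g : SMetric) (x v w : E3) : (T g).toFun x v w = g.scal x v w :=
  toForm_apply _ v w

theorem len_T (g : SMetric) : Pool.Agent.K6.H75.OM.len (T g) = len g := by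
  funext c
  unfold Pool.Agent.K6.H75.OM.len len
  simp only [T_apply]

theorem rho_T (g : SMetric) (p q : E3) : Pool.Agent.K6.H75.OM.rho (T g) p q = rho g p q := by
  unfold Pool.Agent.K6.H75.OM.rho rho
  rw [len_T]

theorem seg_T (g : SMetric) (c : ℝ → E3) (p q : E3) :
    Pool.Agent.K6.H75.OM.IsSegment (T g) c p q ↔ IsSegment g c p q := by
  constructor
  · rintro ⟨h1, h2⟩
    refine ⟨h1, fun t ht => ?_⟩
    have := h2 t ht
    rwa [T_apply, rho_T] at this
  · rintro ⟨h1, h2⟩
    refine ⟨h1, fun t ht => ?_⟩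
    rw [T_apply, rho_T]
    exact h2 t ht

theorem angle_T (g : SMetric) (y v w : E3) :
    Pool.Agent.K6.H75.OM.angle (T g) y v w = angle g y v w := by
  unfold Pool.Agent.K6.H75.OM.angle angle
  simp only [T_apply]

theorem O_T (g : SMetric) : Pool.Agent.K6.H75.OM.PropertyO (T g) ↔ PropertyO g := by
  unfold Pool.Agent.K6.H75.OM.PropertyO PropertyO Pool.Agent.K6.H75.OM.IsCritical IsCritical S2
  simp only [seg_T, angle_T, tangent_iff]

theorem basis_sum (u : E3) : u = ∑ i, u i • EuclideanSpace.single i (1 : ℝ) := by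
  ext k
  simp [Pi.single_apply]

theorem form_eq (b : Form) (v w : E3) : form (fun i j => b (EuclideanSpace.single i 1)
    (EuclideanSpace.single j 1)) v w = b v w := by
  have h1 : b v w = ∑ i, v i * b (EuclideanSpace.single i 1) w := by
    conv_lhs => rw [basis_sum v]
    simp only [map_sum, map_smul, sum_apply, smul_apply, smul_eq_mul]
  have h2 : ∀ i, b (EuclideanSpace.single i 1) w =
      ∑ j, w j * b (EuclideanSpace.single i 1) (EuclideanSpace.single j 1) := by
    intro i
    conv_lhs => rw [basis_sum w]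
    simp only [map_sum, map_smul, smul_eq_mul]
  rw [h1]
  unfold form
  refine Finset.sum_congr rfl fun i _ => ?_
  rw [h2 i, Finset.mul_sum]
  refine Finset.sum_congr rfl fun j _ => ?_
  ring

/-- the coefficients of a metric -/
noncomputable def U (g : SphereMetric) : SMetric where
  coeff i j x := g.toFun x (EuclideanSpace.single i 1) (EuclideanSpace.single j 1)
  smooth i j := (g.smooth.clm_apply contDiffOn_const).clm_apply contDiffOn_const
  ray i j t ht x := by
    beta_reduce
    rw [g.ray t ht]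
  zero i j := by simp [g.zero]
  symm i j x := g.symm x _ _
  normal x v := by
    rw [form_eq, g.normal]
  pos x v hx hxv hv := by
    rw [form_eq]
    exact g.pos x v hx ((tangent_iff x v).1 hxv) hv

theorem T_U (g : SphereMetric) : T (U g) = g := by
  have h : (T (U g)).toFun = g.toFun := by
    funext x
    ext v w
    rw [T_apply]
    exact form_eq _ v w
  cases g
  cases hT : T (U _)
  rw [hT] at h
  subst h
  rfl

theorem exists_not_O : ∃ g : SMetric, ¬ PropertyO g := by
  obtain ⟨g, hg⟩ := Pool.Agent.K6.H75.OM.exists_not_O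
  refine ⟨U g, fun h => hg ?_⟩
  rw [← O_T, T_U] at h
  exact h

/-- continuity of the jets -/
theorem jet_near (g : SMetric) (S : Set SMetric) (l : List (Fin 3)) (i j : Fin 3) {ε : ℝ}
    (hε : 0 < ε) : ∀ᶠ g' in 𝓝[S] g, ∀ x : E3, ‖x‖ = 1 →
      |iterD l (g'.coeff i j) x - iterD l (g.coeff i j) x| ≤ ε := by
  have h1 : Continuous (SMetric.jet l i j) := by
    rw [continuous_iff_le_induced]
    exact (iInf_le _ l).trans ((iInf_le _ i).trans (iInf_le _ j))
  have h2 : Tendsto (SMetric.jet l i j) (𝓝[S] g) (𝓝 (SMetric.jet l i j g)) :=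
    (h1.tendsto g).mono_left nhdsWithin_le_nhds
  rw [UniformFun.tendsto_iff_tendstoUniformly, Metric.tendstoUniformly_iff] at h2
  filter_upwards [h2 ε hε] with g' hg' x hx
  have h3 := hg' ⟨x, by simpa [S2] using hx⟩
  rw [dist_comm, Real.dist_eq] at h3
  exact h3.le

theorem norm_sub_form (g g' : SMetric) {ε : ℝ} {x : E3}
    (h : ∀ i j, |g'.coeff i j x - g.coeff i j x| ≤ ε) :
    ‖(T g').toFun x - (T g).toFun x‖ ≤ ε * ∑ i, ∑ j, ‖E i j‖ := by
  have h1 : (T g').toFun x - (T g).toFun x =
      ∑ i, ∑ j, (g'.coeff i j x - g.coeff i j x) • E i j := by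
    change toForm _ - toForm _ = _
    unfold toForm
    simp only [sub_smul, Finset.sum_sub_distrib]
  rw [h1, Finset.mul_sum]
  refine norm_sum_le_of_le _ fun i _ => ?_
  rw [Finset.mul_sum]
  refine norm_sum_le_of_le _ fun j _ => ?_
  rw [norm_smul, Real.norm_eq_abs]
  exact mul_le_mul_of_nonneg_right (h i j) (norm_nonneg _)

theorem coeff_diff (g : SMetric) (i j : Fin 3) {x : E3} (hx : x ≠ 0) :
    HasFDerivAt (g.coeff i j) (fderiv ℝ (g.coeff i j) x) x :=
  (((g.smooth i j).contDiffAt (isOpen_compl_singleton.mem_nhds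
    (by simpa using hx))).differentiableAt (by simp)).hasFDerivAt

theorem fderiv_T (g : SMetric) {x : E3} (hx : x ≠ 0) : fderiv ℝ (T g).toFun x =
    ∑ i, ∑ j, (fderiv ℝ (g.coeff i j) x).smulRight (E i j) := by
  refine HasFDerivAt.fderiv ?_
  change HasFDerivAt (fun x => toForm fun i j => g.coeff i j x) _ x
  unfold toForm
  exact HasFDerivAt.fun_sum fun i _ => HasFDerivAt.fun_sum fun j _ =>
    (coeff_diff g i j hx).smul_const (E i j)

theorem norm_fderiv_coeff (g g' : SMetric) (i j : Fin 3) {ε : ℝ} {x : E3} (hx : x ≠ 0)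
    (h : ∀ k, |iterD [k] (g'.coeff i j) x - iterD [k] (g.coeff i j) x| ≤ ε) :
    ‖fderiv ℝ (g'.coeff i j) x - fderiv ℝ (g.coeff i j) x‖ ≤ 3 * ε := by
  have hε : 0 ≤ ε := (abs_nonneg _).trans (h 0)
  refine ContinuousLinearMap.opNorm_le_bound _ (by positivity) fun v => ?_
  have h1 : ∀ k, iterD [k] (g'.coeff i j) x - iterD [k] (g.coeff i j) x =
      (fderiv ℝ (g'.coeff i j) x - fderiv ℝ (g.coeff i j) x) (EuclideanSpace.single k 1) := by
    intro k
    simp only [iterD, partialD]
    rw [(coeff_diff g' i j hx).hasLineDerivAt _ |>.lineDeriv,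
      (coeff_diff g i j hx).hasLineDerivAt _ |>.lineDeriv, sub_apply]
  have h2 : (fderiv ℝ (g'.coeff i j) x - fderiv ℝ (g.coeff i j) x) v =
      ∑ k, v k * (iterD [k] (g'.coeff i j) x - iterD [k] (g.coeff i j) x) := by
    conv_lhs => rw [basis_sum v]
    simp only [map_sum, map_smul, smul_eq_mul, h1]
  rw [h2]
  have h3 : ∀ k, |v k| ≤ ‖v‖ := fun k => by
    have := PiLp.norm_apply_le v k
    rwa [Real.norm_eq_abs] at this
  calc ‖∑ k, v k * (iterD [k] (g'.coeff i j) x - iterD [k] (g.coeff i j) x)‖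
      ≤ ∑ _k : Fin 3, ‖v‖ * ε := by
        refine norm_sum_le_of_le _ fun k _ => ?_
        rw [norm_mul, Real.norm_eq_abs, Real.norm_eq_abs]
        exact mul_le_mul (h3 k) (h k) (abs_nonneg _) (norm_nonneg _)
    _ = 3 * ε * ‖v‖ := by
        rw [Finset.sum_const, Finset.card_univ, Fintype.card_fin, nsmul_eq_mul]
        push_cast
        ring

theorem norm_sub_fderiv (g g' : SMetric) {ε : ℝ} {x : E3} (hx : x ≠ 0)
    (h : ∀ i j k, |iterD [k] (g'.coeff i j) x - iterD [k] (g.coeff i j) x| ≤ ε) :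
    ‖fderiv ℝ (T g').toFun x - fderiv ℝ (T g).toFun x‖ ≤ 3 * ε * ∑ i, ∑ j, ‖E i j‖ := by
  have h1 : fderiv ℝ (T g').toFun x - fderiv ℝ (T g).toFun x =
      ∑ i, ∑ j, (fderiv ℝ (g'.coeff i j) x - fderiv ℝ (g.coeff i j) x).smulRight (E i j) := by
    rw [fderiv_T g hx, fderiv_T g' hx, ← Finset.sum_sub_distrib]
    refine Finset.sum_congr rfl fun i _ => ?_
    rw [← Finset.sum_sub_distrib]
    refine Finset.sum_congr rfl fun j _ => ?_
    ext v w
    simp [sub_mul]
  rw [h1, Finset.mul_sum]
  refine norm_sum_le_of_le _ fun i _ => ?_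
  rw [Finset.mul_sum]
  refine norm_sum_le_of_le _ fun j _ => ?_
  rw [ContinuousLinearMap.norm_smulRight_apply]
  exact mul_le_mul_of_nonneg_right (norm_fderiv_coeff g g' i j hx (h i j)) (norm_nonneg _)

theorem exists_seq {g : SMetric} {S : Set SMetric} (hg : g ∈ closure S) :
    ∃ G : ℕ → SMetric, (∀ n, G n ∈ S) ∧ Conv (fun n => T (G n)) (T g) ∧
      Conv' (fun n => T (G n)) (T g) := by
  have hne : (𝓝[S] g).NeBot := mem_closure_iff_nhdsWithin_neBot.1 hg
  have h : ∀ n : ℕ, ∃ g' ∈ S,
      (∀ i j, ∀ x : E3, ‖x‖ = 1 → |g'.coeff i j x - g.coeff i j x| ≤ 1 / (n + 1)) ∧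
      ∀ i j k, ∀ x : E3, ‖x‖ = 1 →
        |iterD [k] (g'.coeff i j) x - iterD [k] (g.coeff i j) x| ≤ 1 / (n + 1) := by
    intro n
    have hpos : (0 : ℝ) < 1 / (n + 1) := by positivity
    have e0 : ∀ᶠ g' in 𝓝[S] g, ∀ i j, ∀ x : E3, ‖x‖ = 1 →
        |g'.coeff i j x - g.coeff i j x| ≤ 1 / ((n : ℝ) + 1) := by
      rw [eventually_all]
      intro i
      rw [eventually_all]
      intro j
      exact jet_near g S [] i j hpos
    have e1 : ∀ᶠ g' in 𝓝[S] g, ∀ i j k, ∀ x : E3, ‖x‖ = 1 →
        |iterD [k] (g'.coeff i j) x - iterD [k] (g.coeff i j) x| ≤ 1 / ((n : ℝ) + 1) := by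
      rw [eventually_all]
      intro i
      rw [eventually_all]
      intro j
      rw [eventually_all]
      intro k
      exact jet_near g S [k] i j hpos
    obtain ⟨g', ⟨h0, h1⟩, h2⟩ := ((e0.and e1).and self_mem_nhdsWithin).exists
    exact ⟨g', h2, h0, h1⟩
  choose G hS h0 h1 using h
  set C : ℝ := ∑ i, ∑ j, ‖E i j‖ with hC
  have hlim : Tendsto (fun n : ℕ => 3 * (1 / ((n : ℝ) + 1)) * C) atTop (𝓝 0) := by
    have := ((tendsto_one_div_add_atTop_nhds_zero_nat (𝕜 := ℝ)).const_mul 3).mul_const C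
    simpa using this
  have hlim' : Tendsto (fun n : ℕ => (1 / ((n : ℝ) + 1)) * C) atTop (𝓝 0) := by
    have := (tendsto_one_div_add_atTop_nhds_zero_nat (𝕜 := ℝ)).mul_const C
    simpa using this
  have hx0 : ∀ x : E3, ‖x‖ = 1 → x ≠ 0 := by rintro x hx rfl; simp at hx
  refine ⟨G, hS, fun ε hε => ?_, fun ε hε => ?_⟩
  · filter_upwards [hlim'.eventually_le_const hε] with n hn x hx
    exact (norm_sub_form g (G n) fun i j => h0 n i j x hx).trans hn
  · filter_upwards [hlim.eventually_le_const hε] with n hn x hx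
    exact (norm_sub_fderiv g (G n) (hx0 x hx) fun i j k => h1 n i j k x hx).trans hn

/-- Property (O) is a closed condition. -/
theorem closed_O : IsClosed {g : SMetric | PropertyO g} := by
  refine isClosed_of_closure_subset fun g hg => ?_
  obtain ⟨G, hS, hconv, hconv'⟩ := exists_seq hg
  exact (O_T g).1 (Pool.Agent.K6.H75.OM.O_of_limit (fun n => (O_T (G n)).2 (hS n)) hconv hconv')

theorem not_dense_O : ¬ Dense {g : SMetric | PropertyO g} := by
  intro h
  obtain ⟨g, hg⟩ := exists_not_O
  have h1 : closure {g : SMetric | PropertyO g} = Set.univ := h.closure_eq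
  rw [closed_O.closure_eq] at h1
  exact hg (h1 ▸ Set.mem_univ g : g ∈ {g : SMetric | PropertyO g})

end Pool.Agent.K6.H75.OM3
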